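import Mathlib

set_option autoImplicit false

namespace Pool.Agent.H57.Cyc

open Filter Topology MeasureTheory Real

/-- The point `e^{iθ}`. -/
noncomputable def cis (θ : ℝ) : ℂ := Complex.exp (θ * Complex.I)

lemma norm_cis (θ : ℝ) : ‖cis θ‖ = 1 := Complex.norm_exp_ofReal_mul_I θ

lemma continuous_cis : Continuous cis := by
  unfold cis
  fun_prop

lemma cis_add (a b : ℝ) : cis (a + b) = cis a * cis b := by
  unfold cis
  rw [← Complex.exp_add]
  congr 1
  push_cast
  ring

lemma cis_zero : cis 0 = 1 := by simp [cis]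

lemma cis_two_pi : cis (2 * π) = 1 := by
  unfold cis
  push_cast
  exact Complex.exp_two_pi_mul_I

lemma cis_periodic : Function.Periodic cis (2 * π) := by
  intro θ
  rw [cis_add, cis_two_pi, mul_one]

lemma cis_pow (θ : ℝ) (n : ℕ) : cis θ ^ n = cis (n * θ) := by
  unfold cis
  rw [← Complex.exp_nat_mul]
  congr 1
  push_cast
  ring

lemma cis_pi_div_two : cis (π / 2) = Complex.I := by
  unfold cis
  have : ((π / 2 : ℝ) : ℂ) * Complex.I = (π / 2 : ℂ) * Complex.I := by push_cast; ring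
  rw [this, Complex.exp_pi_div_two_mul_I]

lemma cis_quarter (k : ℕ) : cis (k * (π / 2)) = Complex.I ^ k := by
  rw [← cis_pow, cis_pi_div_two]

lemma two_sqrt {u a : ℝ} (hu : 0 < u) (ha : |a| ≤ u) :
    √(u + a) + √(u - a) ≤ 2 * √u - a^2 / (4 * (u * √u)) := by
  have ha1 := abs_le.1 ha
  have hsq : a^2 ≤ u^2 := sq_le_sq' ha1.1 ha1.2
  set s := √u with hs
  have hs0 : 0 < s := Real.sqrt_pos.2 hu
  have hsu : s * s = u := Real.mul_self_sqrt hu.le
  set X := √(u + a) with hX
  set Y := √(u - a) with hY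
  have hX0 : 0 ≤ X := Real.sqrt_nonneg _
  have hY0 : 0 ≤ Y := Real.sqrt_nonneg _
  have hX2 : X * X = u + a := Real.mul_self_sqrt (by linarith)
  have hY2 : Y * Y = u - a := Real.mul_self_sqrt (by linarith)
  -- bound of the product
  have h1 : X * Y ≤ u - a^2 / (2 * u) := by
    have hr : 0 ≤ u - a^2 / (2 * u) := by
      have : a^2 / (2 * u) ≤ u := by
        rw [div_le_iff₀ (by positivity)]
        nlinarith
      linarith
    apply le_of_sq_le_sq _ hr
    have e1 : (X * Y)^2 = u^2 - a^2 := by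
      have : (X * Y)^2 = (X * X) * (Y * Y) := by ring
      rw [this, hX2, hY2]; ring
    have e2 : (u - a^2 / (2 * u))^2 = u^2 - a^2 + (a^2 / (2 * u))^2 := by
      field_simp
      ring
    rw [e1, e2]
    have := sq_nonneg (a^2 / (2 * u))
    linarith
  have hden : 0 < 4 * (u * s) := by positivity
  have hr : 0 ≤ 2 * s - a^2 / (4 * (u * s)) := by
    have : a^2 / (4 * (u * s)) ≤ 2 * s := by
      rw [div_le_iff₀ hden]
      have : 2 * s * (4 * (u * s)) = 8 * u * (s * s) := by ring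
      rw [this, hsu]
      nlinarith
    linarith
  apply le_of_sq_le_sq _ hr
  have e1 : (X + Y)^2 = 2 * u + 2 * (X * Y) := by
    have : (X + Y)^2 = X * X + Y * Y + 2 * (X * Y) := by ring
    rw [this, hX2, hY2]; ring
  have e2 : (2 * s - a^2 / (4 * (u * s)))^2 = 4 * u - a^2 / u + (a^2 / (4 * (u * s)))^2 := by
    have h3 : (2 * s - a^2 / (4 * (u * s)))^2 =
        4 * (s * s) - (4 * s) * (a^2 / (4 * (u * s))) + (a^2 / (4 * (u * s)))^2 := by ring
    rw [h3, hsu]
    congr 2
    field_simp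
  rw [e1, e2]
  have h4 : 2 * (a^2 / (2 * u)) = a^2 / u := by field_simp
  have := sq_nonneg (a^2 / (4 * (u * s)))
  linarith

lemma four_sqrt {u : ℝ} {z : ℂ} (hu : 0 < u) (hz : ‖z‖ ≤ u) :
    ∑ k ∈ Finset.range 4, √(u + (Complex.I ^ k * z).re) ≤ 4 * √u - ‖z‖^2 / (4 * (u * √u)) := by
  have h1 := two_sqrt hu ((Complex.abs_re_le_norm z).trans hz)
  have h2 := two_sqrt hu ((Complex.abs_im_le_norm z).trans hz)
  have hI2 : Complex.I ^ 2 = -1 := Complex.I_sq
  have hI3 : Complex.I ^ 3 = - Complex.I := by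
    rw [pow_succ, Complex.I_sq]; ring
  simp only [Finset.sum_range_succ, Finset.range_zero, Finset.sum_empty, zero_add, pow_zero,
    one_mul, pow_one, hI2, hI3]
  have e1 : (Complex.I * z).re = - z.im := by simp
  have e2 : (-1 * z).re = - z.re := by simp
  have e3 : (-Complex.I * z).re = z.im := by simp
  rw [e1, e2, e3]
  have e4 : ‖z‖^2 / (4 * (u * √u)) = z.re^2 / (4 * (u * √u)) + z.im^2 / (4 * (u * √u)) := by
    rw [← Complex.normSq_eq_norm_sq, Complex.normSq_apply]
    ring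
  rw [e4]
  simp only [← sub_eq_add_neg]
  linarith

lemma sqrt_add_le' {x y : ℝ} (hx : 0 ≤ x) (hy : 0 ≤ y) : √(x + y) ≤ √x + √y := by
  have h : (√x + √y) ^ 2 = x + y + 2 * (√x * √y) := by
    have : (√x + √y) ^ 2 = √x * √x + √y * √y + 2 * (√x * √y) := by ring
    rw [this, Real.mul_self_sqrt hx, Real.mul_self_sqrt hy]
  apply Real.sqrt_le_iff.2
  refine ⟨by positivity, ?_⟩
  rw [h]
  have := mul_nonneg (Real.sqrt_nonneg x) (Real.sqrt_nonneg y)
  linarith

lemma unif_cont {F : ℂ → ℂ} (hF : Continuous F) {η : ℝ} (hη : 0 < η) :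
    ∃ δ > 0, ∀ z w : ℂ, ‖z‖ ≤ 1 → ‖w‖ ≤ 1 → ‖z - w‖ < δ → ‖F z - F w‖ < η := by
  have h := (isCompact_closedBall (0:ℂ) 1).uniformContinuousOn_of_continuous hF.continuousOn
  rw [Metric.uniformContinuousOn_iff] at h
  obtain ⟨δ, hδ, h⟩ := h η hη
  refine ⟨δ, hδ, ?_⟩
  intro z w hz hw hzw
  have := h z (by simpa using hz) w (by simpa using hw) (by rwa [dist_eq_norm])
  rwa [dist_eq_norm] at this

lemma norm_cis_sub_one_le (τ : ℝ) : ‖cis τ - 1‖ ≤ |τ| := by
  unfold cis
  rw [mul_comm]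
  exact Real.norm_exp_I_mul_ofReal_sub_one_le

lemma integral_shift {G : ℝ → ℝ} (hG : Function.Periodic G (2 * π)) (τ : ℝ) :
    ∫ θ in (-π)..π, G (θ + τ) = ∫ θ in (-π)..π, G θ := by
  rw [intervalIntegral.integral_comp_add_right]
  have h1 := hG.intervalIntegral_add_eq (-π + τ) (-π)
  have e1 : -π + τ + 2 * π = π + τ := by ring
  have e2 : -π + 2 * π = π := by ring
  rw [e1, e2] at h1
  exact h1

lemma lyap (H R : ℂ → ℂ) (hH : Continuous H) (hR : Continuous R)
    (hpos : ∀ θ, 0 < (H (cis θ)).re) (hle : ∀ θ, ‖R (cis θ)‖ ≤ (H (cis θ)).re)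
    (ε : ℝ) (hε : 0 < ε) :
    ∀ᶠ n : ℕ in atTop, ∫ θ in (-π)..π, √((H (cis θ) + cis θ ^ n * R (cis θ)).re) ≤
      (∫ θ in (-π)..π, √((H (cis θ)).re)) -
        (1/16) * (∫ θ in (-π)..π, ‖R (cis θ)‖^2 / ((H (cis θ)).re * √((H (cis θ)).re))) + ε := by
  -- choose η
  obtain ⟨η, hη, hηε⟩ : ∃ η : ℝ, 0 < η ∧ 2 * π * √(2 * η) ≤ ε := by
    refine ⟨(ε / (2 * π))^2 / 2, by positivity, ?_⟩
    have h1 : 2 * ((ε / (2 * π))^2 / 2) = (ε / (2 * π))^2 := by ring
    rw [h1, Real.sqrt_sq (by positivity)]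
    have : 2 * π * (ε / (2 * π)) = ε := by field_simp
    rw [this]
  obtain ⟨δ1, hδ1, hu1⟩ := unif_cont hH hη
  obtain ⟨δ2, hδ2, hu2⟩ := unif_cont hR hη
  have hcH : Continuous (fun θ => (H (cis θ)).re) :=
    Complex.continuous_re.comp (hH.comp continuous_cis)
  have hcR : Continuous (fun θ => R (cis θ)) := hR.comp continuous_cis
  -- n large
  have hn : ∀ᶠ n : ℕ in atTop, 0 < n ∧ 2 * π / n < min δ1 δ2 := by
    have h1 : Tendsto (fun n : ℕ => 2 * π / (n : ℝ)) atTop (𝓝 0) :=
      tendsto_const_nhds.div_atTop tendsto_natCast_atTop_atTop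
    exact (eventually_gt_atTop 0).and (h1.eventually (gt_mem_nhds (lt_min hδ1 hδ2)))
  filter_upwards [hn] with n hn'
  obtain ⟨hn0, hnδ⟩ := hn'
  have hn0' : (0 : ℝ) < n := by exact_mod_cast hn0
  set F : ℝ → ℝ := fun θ => √((H (cis θ) + cis θ ^ n * R (cis θ)).re) with hF
  have hFper : Function.Periodic F (2 * π) := by
    intro θ
    simp only [hF]
    rw [cis_periodic θ]
  have hFcont : Continuous F := by
    simp only [hF]
    exact (Complex.continuous_re.comp ((hH.comp continuous_cis).add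
      ((continuous_cis.pow n).mul hcR))).sqrt
  -- pointwise bound at the shifted points
  have hpt : ∀ k : ℕ, k < 4 → ∀ θ, F (θ + k * (π / 2) / n) ≤
      √((H (cis θ)).re + (Complex.I ^ k * (cis θ ^ n * R (cis θ))).re) + √(2 * η) := by
    intro k hk θ
    set τ : ℝ := k * (π / 2) / n with hτ
    have hτ0 : 0 ≤ τ := by positivity
    have hτlt : |τ| < min δ1 δ2 := by
      rw [abs_of_nonneg hτ0]
      refine lt_of_le_of_lt ?_ hnδ
      rw [hτ]
      apply div_le_div_of_nonneg_right _ hn0'.le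
      have hk' : (k : ℝ) ≤ 4 := by exact_mod_cast hk.le
      nlinarith [Real.pi_pos]
    have hcis : cis (θ + τ) ^ n = Complex.I ^ k * cis θ ^ n := by
      rw [cis_add, mul_pow, cis_pow τ n, hτ]
      have : (n : ℝ) * (k * (π / 2) / n) = k * (π / 2) := by field_simp
      rw [this, cis_quarter, mul_comm]
    have hdist : ‖cis (θ + τ) - cis θ‖ ≤ |τ| := by
      have : cis (θ + τ) - cis θ = cis θ * (cis τ - 1) := by rw [cis_add]; ring
      rw [this, norm_mul, norm_cis, one_mul]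
      exact norm_cis_sub_one_le τ
    have hH1 := hu1 (cis (θ + τ)) (cis θ) (norm_cis _).le (norm_cis _).le
      (lt_of_le_of_lt hdist (lt_of_lt_of_le hτlt (min_le_left _ _)))
    have hR1 := hu2 (cis (θ + τ)) (cis θ) (norm_cis _).le (norm_cis _).le
      (lt_of_le_of_lt hdist (lt_of_lt_of_le hτlt (min_le_right _ _)))
    have hre : (H (cis (θ + τ)) + cis (θ + τ) ^ n * R (cis (θ + τ))).re ≤
        ((H (cis θ)).re + (Complex.I ^ k * (cis θ ^ n * R (cis θ))).re) + 2 * η := by
      have e1 : (H (cis (θ + τ)) + cis (θ + τ) ^ n * R (cis (θ + τ))).re -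
          ((H (cis θ)).re + (Complex.I ^ k * (cis θ ^ n * R (cis θ))).re) =
          ((H (cis (θ + τ)) - H (cis θ)) +
            (Complex.I ^ k * cis θ ^ n) * (R (cis (θ + τ)) - R (cis θ))).re := by
        rw [hcis]
        have : (H (cis (θ + τ)) - H (cis θ)) +
            (Complex.I ^ k * cis θ ^ n) * (R (cis (θ + τ)) - R (cis θ)) =
            (H (cis (θ + τ)) + Complex.I ^ k * cis θ ^ n * R (cis (θ + τ))) -
            (H (cis θ) + Complex.I ^ k * (cis θ ^ n * R (cis θ))) := by ring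
        rw [this, Complex.sub_re, Complex.add_re (H (cis θ))]
      have e2 : ((H (cis (θ + τ)) - H (cis θ)) +
            (Complex.I ^ k * cis θ ^ n) * (R (cis (θ + τ)) - R (cis θ))).re ≤ 2 * η := by
        refine (Complex.re_le_norm _).trans ((norm_add_le _ _).trans ?_)
        rw [norm_mul, norm_mul, norm_pow, norm_pow, Complex.norm_I, norm_cis, one_pow, one_pow,
          one_mul, one_mul]
        linarith
      linarith
    calc F (θ + τ) = √((H (cis (θ + τ)) + cis (θ + τ) ^ n * R (cis (θ + τ))).re) := rfl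
      _ ≤ √(((H (cis θ)).re + (Complex.I ^ k * (cis θ ^ n * R (cis θ))).re) + 2 * η) :=
        Real.sqrt_le_sqrt hre
      _ ≤ √((H (cis θ)).re + (Complex.I ^ k * (cis θ ^ n * R (cis θ))).re) + √(2 * η) := by
        apply sqrt_add_le'
        · have h1 : -‖Complex.I ^ k * (cis θ ^ n * R (cis θ))‖ ≤
              (Complex.I ^ k * (cis θ ^ n * R (cis θ))).re :=
            (abs_le.1 (Complex.abs_re_le_norm _)).1
          rw [norm_mul, norm_mul, norm_pow, norm_pow, Complex.norm_I, norm_cis, one_pow, one_pow,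
            one_mul, one_mul] at h1
          have := hle θ
          linarith
        · positivity
  have hptsum : ∀ θ, ∑ k ∈ Finset.range 4, F (θ + k * (π / 2) / n) ≤
      (4 * √((H (cis θ)).re) - ‖R (cis θ)‖^2 / (4 * ((H (cis θ)).re * √((H (cis θ)).re)))) +
        4 * √(2 * η) := by
    intro θ
    have h1 : ∑ k ∈ Finset.range 4, F (θ + k * (π / 2) / n) ≤ ∑ k ∈ Finset.range 4,
        (√((H (cis θ)).re + (Complex.I ^ k * (cis θ ^ n * R (cis θ))).re) + √(2 * η)) :=
      Finset.sum_le_sum (fun k hk => hpt k (Finset.mem_range.1 hk) θ)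
    rw [Finset.sum_add_distrib, Finset.sum_const, Finset.card_range] at h1
    have hnw : ‖cis θ ^ n * R (cis θ)‖ = ‖R (cis θ)‖ := by
      rw [norm_mul, norm_pow, norm_cis, one_pow, one_mul]
    have h2 := four_sqrt (hpos θ) (z := cis θ ^ n * R (cis θ)) (by rw [hnw]; exact hle θ)
    rw [hnw] at h2
    simp only [nsmul_eq_mul, Nat.cast_ofNat] at h1
    linarith
  -- integrate
  have hint1 : ∀ k : ℕ, IntervalIntegrable (fun θ => F (θ + k * (π / 2) / n)) volume (-π) π :=
    fun k => (hFcont.comp (continuous_add_const _)).intervalIntegrable _ _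
  have hcden : Continuous (fun θ => ‖R (cis θ)‖^2 / ((H (cis θ)).re * √((H (cis θ)).re))) := by
    apply (hcR.norm.pow 2).div (hcH.mul hcH.sqrt)
    intro θ
    exact (mul_pos (hpos θ) (Real.sqrt_pos.2 (hpos θ))).ne'
  have hcden4 : Continuous (fun θ => ‖R (cis θ)‖^2 / (4 * ((H (cis θ)).re * √((H (cis θ)).re)))) := by
    apply (hcR.norm.pow 2).div ((hcH.mul hcH.sqrt).const_mul 4)
    intro θ
    exact (mul_pos (by norm_num) (mul_pos (hpos θ) (Real.sqrt_pos.2 (hpos θ)))).ne'
  have hc1 : Continuous (fun θ => 4 * √((H (cis θ)).re)) := hcH.sqrt.const_mul 4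
  have hc2 : Continuous (fun θ => 4 * √((H (cis θ)).re) -
        ‖R (cis θ)‖^2 / (4 * ((H (cis θ)).re * √((H (cis θ)).re)))) := hc1.sub hcden4
  have hc3 : Continuous (fun θ => (4 * √((H (cis θ)).re) -
        ‖R (cis θ)‖^2 / (4 * ((H (cis θ)).re * √((H (cis θ)).re)))) + 4 * √(2 * η)) :=
    hc2.add continuous_const
  have hc4 : Continuous (fun θ => ∑ k ∈ Finset.range 4, F (θ + k * (π / 2) / n)) :=
    continuous_finsetSum _ (fun k _ => hFcont.comp (continuous_add_const _))
  have hmain : ∫ θ in (-π)..π, ∑ k ∈ Finset.range 4, F (θ + k * (π / 2) / n) ≤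
      ∫ θ in (-π)..π, ((4 * √((H (cis θ)).re) -
        ‖R (cis θ)‖^2 / (4 * ((H (cis θ)).re * √((H (cis θ)).re)))) + 4 * √(2 * η)) := by
    apply intervalIntegral.integral_mono_on (by linarith [Real.pi_pos])
    · exact hc4.intervalIntegrable _ _
    · exact hc3.intervalIntegrable _ _
    · intro θ _
      exact hptsum θ
  rw [intervalIntegral.integral_finsetSum (fun k _ => hint1 k)] at hmain
  have hsh : ∀ k ∈ Finset.range 4, ∫ θ in (-π)..π, F (θ + k * (π / 2) / n) =
      ∫ θ in (-π)..π, F θ := fun k _ => integral_shift hFper _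
  rw [Finset.sum_congr rfl hsh, Finset.sum_const, Finset.card_range] at hmain
  rw [intervalIntegral.integral_add
      (hc2.intervalIntegrable _ _)
      (continuous_const.intervalIntegrable _ _),
    intervalIntegral.integral_sub (hc1.intervalIntegrable _ _)
      (hcden4.intervalIntegrable _ _), intervalIntegral.integral_const_mul,
    intervalIntegral.integral_const] at hmain
  have e3 : ∫ θ in (-π)..π, ‖R (cis θ)‖^2 / (4 * ((H (cis θ)).re * √((H (cis θ)).re))) =
      (1/4) * ∫ θ in (-π)..π, ‖R (cis θ)‖^2 / ((H (cis θ)).re * √((H (cis θ)).re)) := by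
    rw [← intervalIntegral.integral_const_mul]
    congr 1
    funext θ
    have := hpos θ
    field_simp
  rw [e3] at hmain
  simp only [nsmul_eq_mul, Nat.cast_ofNat, smul_eq_mul] at hmain
  have hFeq : ∫ θ in (-π)..π, √((H (cis θ) + cis θ ^ n * R (cis θ)).re) =
    ∫ θ in (-π)..π, F θ := rfl
  rw [hFeq]
  have e4 : (π - -π) * (4 * √(2 * η)) = 4 * (2 * π * √(2 * η)) := by ring
  rw [e4] at hmain
  linarith

end Pool.Agent.H57.Cyc
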