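import Mathlib
import Pool.Agent.H57.Cyc.Circle

set_option autoImplicit false

namespace Pool.Agent.H57.Cyc

open Filter Topology MeasureTheory Real Metric Set

instance fact_two_pi : Fact (0 < 2 * π) := ⟨Real.two_pi_pos⟩

lemma fourier_cis (n : ℤ) (θ : ℝ) :
    (fourier n (θ : AddCircle (2 * π)) : ℂ) = (cis θ) ^ n := by
  rw [fourier_coe_apply]
  unfold cis
  rw [← Complex.exp_int_mul]
  congr 1
  have : (π : ℂ) ≠ 0 := by exact_mod_cast Real.pi_ne_zero
  push_cast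
  field_simp

lemma eq_cis_arg {w : ℂ} (hw : ‖w‖ = 1) : w = cis (Complex.arg w) := by
  have h := Complex.norm_mul_exp_arg_mul_I w
  rw [hw, Complex.ofReal_one, one_mul] at h
  exact h.symm

lemma trig_poly (g : C(AddCircle (2 * π), ℂ))
    (hg : g ∈ Submodule.span ℂ (Set.range (@fourier (2 * π)))) :
    ∃ (K : ℕ) (Q : Polynomial ℂ), ∀ θ : ℝ,
      cis θ ^ K * g (θ : AddCircle (2 * π)) = Q.eval (cis θ) := by
  induction hg using Submodule.span_induction with
  | mem x hx =>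
    obtain ⟨n, rfl⟩ := hx
    refine ⟨n.natAbs, Polynomial.X ^ ((n.natAbs : ℤ) + n).toNat, ?_⟩
    intro θ
    rw [fourier_cis, Polynomial.eval_pow, Polynomial.eval_X]
    have hne : cis θ ≠ 0 := by
      intro h
      have := norm_cis θ
      rw [h, norm_zero] at this
      exact zero_ne_one this
    have h1 : (cis θ) ^ ((n.natAbs : ℤ) + n).toNat = (cis θ) ^ ((n.natAbs : ℤ) + n) := by
      rw [← zpow_natCast, Int.toNat_of_nonneg (by omega)]
    rw [h1, zpow_add₀ hne, zpow_natCast]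
  | zero => exact ⟨0, 0, fun θ => by simp⟩
  | add x y _ _ hx hy =>
    obtain ⟨K1, Q1, h1⟩ := hx
    obtain ⟨K2, Q2, h2⟩ := hy
    refine ⟨K1 + K2, Polynomial.X ^ K2 * Q1 + Polynomial.X ^ K1 * Q2, ?_⟩
    intro θ
    simp only [Polynomial.eval_add, Polynomial.eval_mul, Polynomial.eval_pow, Polynomial.eval_X,
      ← h1, ← h2, ContinuousMap.add_apply, pow_add]
    ring
  | smul a x _ hx =>
    obtain ⟨K, Q, h⟩ := hx
    refine ⟨K, Polynomial.C a * Q, ?_⟩
    intro θ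
    simp only [Polynomial.eval_mul, Polynomial.eval_C, ← h, ContinuousMap.smul_apply, smul_eq_mul]
    ring

lemma exists_R (s : ℂ → ℝ) (hs : Continuous s) (hpos : ∀ θ, 0 < s (cis θ)) :
    ∃ Q : Polynomial ℂ, ∀ θ, s (cis θ) / 2 ≤ ‖Q.eval (cis θ)‖ ∧ ‖Q.eval (cis θ)‖ ≤ s (cis θ) := by
  -- minimum
  obtain ⟨m, hm, hms⟩ : ∃ m : ℝ, 0 < m ∧ ∀ θ, m ≤ s (cis θ) := by
    obtain ⟨z0, hz0, hmin⟩ := (isCompact_sphere (0:ℂ) 1).exists_isMinOn
      ⟨1, by simp⟩ hs.continuousOn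
    have hz0' : ‖z0‖ = 1 := by simpa using hz0
    have hz1 : z0 = cis (Complex.arg z0) := eq_cis_arg hz0'
    refine ⟨s z0, by rw [hz1]; exact hpos _, ?_⟩
    intro θ
    exact hmin (by simp [norm_cis] : cis θ ∈ sphere (0:ℂ) 1)
  let g0 : C(AddCircle (2 * π), ℂ) :=
    ⟨fun x => ((3 / 4 * s (fourier 1 x) : ℝ) : ℂ),
      Complex.continuous_ofReal.comp (continuous_const.mul (hs.comp (fourier 1).continuous))⟩
  have hmem : g0 ∈ closure (Submodule.span ℂ (Set.range (@fourier (2 * π))) : Set C(AddCircle (2 * π), ℂ)) := by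
    rw [← Submodule.topologicalClosure_coe, span_fourier_closure_eq_top]
    trivial
  obtain ⟨g, hg, hdist⟩ := Metric.mem_closure_iff.1 hmem (m / 4) (by positivity)
  obtain ⟨K, Q, hQ⟩ := trig_poly g hg
  refine ⟨Q, ?_⟩
  intro θ
  have h1 : ‖g0 (θ : AddCircle (2 * π)) - g (θ : AddCircle (2 * π))‖ < m / 4 := by
    rw [← dist_eq_norm]
    exact (ContinuousMap.dist_apply_le_dist _).trans_lt hdist
  have h2 : g0 (θ : AddCircle (2 * π)) = ((3 / 4 * s (cis θ) : ℝ) : ℂ) := by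
    show ((3 / 4 * s (fourier 1 (θ : AddCircle (2 * π))) : ℝ) : ℂ) = _
    rw [fourier_cis, zpow_one]
  have h3 : ‖Q.eval (cis θ)‖ = ‖g (θ : AddCircle (2 * π))‖ := by
    rw [← hQ θ, norm_mul, norm_pow, norm_cis, one_pow, one_mul]
  rw [h3]
  rw [h2] at h1
  have hsp := hpos θ
  have h4 : ‖((3 / 4 * s (cis θ) : ℝ) : ℂ)‖ = 3 / 4 * s (cis θ) := by
    rw [Complex.norm_real, Real.norm_of_nonneg (by positivity)]
  have h5 := abs_norm_sub_norm_le ((3 / 4 * s (cis θ) : ℝ) : ℂ) (g (θ : AddCircle (2 * π)))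
  rw [h4] at h5
  have h6 := (abs_le.1 (h5.trans h1.le))
  have h7 := hms θ
  constructor <;> linarith [h6.1, h6.2]

/-- Maximum principle on the unit disc with boundary data on `cis`. -/
lemma max_mod {F : ℂ → ℂ} (hF : Differentiable ℂ F) {C : ℝ} (h : ∀ θ, ‖F (cis θ)‖ ≤ C) {z : ℂ}
    (hz : ‖z‖ ≤ 1) : ‖F z‖ ≤ C := by
  apply Complex.norm_le_of_forall_mem_frontier_norm_le (isBounded_ball (x := (0:ℂ)) (r := 1))
    hF.diffContOnCl
  · intro w hw
    rw [frontier_ball _ one_ne_zero] at hw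
    have hw' : ‖w‖ = 1 := by simpa using hw
    rw [eq_cis_arg hw']
    exact h _
  · rw [closure_ball _ one_ne_zero]
    simpa using hz

end Pool.Agent.H57.Cyc
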