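import Mathlib

set_option autoImplicit false

namespace Pool.Agent.H57.Cyc

open Filter Topology MeasureTheory
open scoped ENNReal

/-- The norm of the space `D^p_{p-1}`, with values in `[0, ∞]`:
`|f(0)| + (∫_𝔻 (1-|z|)^(p-1) |f'(z)|^p dA(z))^(1/p)`, where `𝔻` is the open unit disc
and `dA` is area (Lebesgue) measure. -/
noncomputable def dNorm (p : ℝ) (f : ℂ → ℂ) : ℝ≥0∞ :=
  ENNReal.ofReal ‖f 0‖ +
    (∫⁻ z in Metric.ball (0 : ℂ) 1,
      ENNReal.ofReal ((1 - ‖z‖) ^ (p - 1) * ‖deriv f z‖ ^ p)) ^ (1 / p)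

/-- Membership in `D^p_{p-1}`: `f` is analytic on the open unit disc and its norm is finite. -/
def MemD (p : ℝ) (f : ℂ → ℂ) : Prop :=
  DifferentiableOn ℂ f (Metric.ball (0 : ℂ) 1) ∧ dNorm p f < ⊤

/-- Cyclicity in `D^p_{p-1}`: there are polynomials `q_n` with `‖q_n f - 1‖ → 0`. -/
def IsCyclicD (p : ℝ) (f : ℂ → ℂ) : Prop :=
  ∃ q : ℕ → Polynomial ℂ,
    Tendsto (fun n => dNorm p (fun z => (q n).eval z * f z - 1)) atTop (𝓝 0)

end Pool.Agent.H57.Cyc
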