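import Mathlib
import Pool.Agent.H57.Cyc.Circle

set_option autoImplicit false

namespace Pool.Agent.H57.Cyc

open Filter Topology MeasureTheory Real Metric Set

lemma norm_mul_cis {r : ℝ} (hr : 0 ≤ r) (θ : ℝ) : ‖(r:ℂ) * cis θ‖ = r := by
  rw [norm_mul, norm_cis, mul_one, Complex.norm_real, Real.norm_of_nonneg hr]

lemma polar_symm_eq (p : ℝ × ℝ) : Complex.polarCoord.symm p = p.1 * cis p.2 := by
  rw [Complex.polarCoord_symm_apply]
  unfold cis
  rw [Complex.exp_mul_I]
  simp

lemma integral_ball_polar {E : Type*} [NormedAddCommGroup E] [NormedSpace ℝ E]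
    (f : ℂ → E) {R : ℝ} (hR : 0 ≤ R)
    (hf : ContinuousOn f (closedBall 0 R)) :
    ∫ z in ball (0:ℂ) R, f z = ∫ r in (0:ℝ)..R, ∫ θ in (-π)..π, r • f (r * cis θ) := by
  have h1 : ∫ z in ball (0:ℂ) R, f z = ∫ z, (ball (0:ℂ) R).indicator f z :=
    (integral_indicator measurableSet_ball).symm
  rw [h1, ← Complex.integral_comp_polarCoord_symm]
  have h2 : ∀ p ∈ polarCoord.target, p.1 • (ball (0:ℂ) R).indicator f (Complex.polarCoord.symm p) =
      (Iio R ×ˢ (univ : Set ℝ)).indicator (fun p : ℝ × ℝ => p.1 • f (p.1 * cis p.2)) p := by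
    intro p hp
    have hp1 : 0 < p.1 := hp.1
    rw [polar_symm_eq]
    by_cases h : p.1 < R
    · rw [indicator_of_mem, indicator_of_mem]
      · exact ⟨h, mem_univ _⟩
      · rw [mem_ball_zero_iff, norm_mul_cis hp1.le]
        exact h
    · rw [indicator_of_notMem, indicator_of_notMem, smul_zero]
      · intro h'
        exact h h'.1
      · rw [mem_ball_zero_iff, norm_mul_cis hp1.le]
        exact h
  rw [setIntegral_congr_fun polarCoord.open_target.measurableSet h2,
    setIntegral_indicator (measurableSet_Iio.prod MeasurableSet.univ)]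
  have h3 : polarCoord.target ∩ (Iio R ×ˢ (univ : Set ℝ)) = Ioo 0 R ×ˢ Ioo (-π) π := by
    rw [polarCoord_target, prod_inter_prod, inter_univ, Ioi_inter_Iio]
  rw [h3]
  have hcont : ContinuousOn (fun p : ℝ × ℝ => p.1 • f (p.1 * cis p.2)) (Icc 0 R ×ˢ Icc (-π) π) := by
    apply ContinuousOn.smul continuousOn_fst
    apply hf.comp
    · have : Continuous (fun p : ℝ × ℝ => (p.1:ℂ) * cis p.2) :=
        (Complex.continuous_ofReal.comp continuous_fst).mul (continuous_cis.comp continuous_snd)
      exact this.continuousOn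
    · intro p hp
      rw [mem_closedBall_zero_iff, norm_mul_cis hp.1.1]
      exact hp.1.2
  have hint : IntegrableOn (fun p : ℝ × ℝ => p.1 • f (p.1 * cis p.2)) (Icc 0 R ×ˢ Icc (-π) π)
      (volume.prod volume) :=
    hcont.integrableOn_compact (isCompact_Icc.prod isCompact_Icc)
  have hint' : IntegrableOn (fun p : ℝ × ℝ => p.1 • f (p.1 * cis p.2)) (Ioo 0 R ×ˢ Ioo (-π) π)
      (volume.prod volume) :=
    hint.mono_set (prod_mono Ioo_subset_Icc_self Ioo_subset_Icc_self)
  rw [Measure.volume_eq_prod, setIntegral_prod _ hint']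
  rw [intervalIntegral.integral_of_le hR, integral_Ioc_eq_integral_Ioo]
  apply setIntegral_congr_fun measurableSet_Ioo
  intro r _
  simp only
  rw [intervalIntegral.integral_of_le (by linarith [Real.pi_pos]), integral_Ioc_eq_integral_Ioo]

end Pool.Agent.H57.Cyc
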