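import Mathlib
import Pool.Agent.H57.Cyc.Polar

set_option autoImplicit false

namespace Pool.Agent.H57.Cyc

open Filter Topology MeasureTheory Real Metric Set


/-- Taylor coefficient at the origin. -/
noncomputable def tc (F : ℂ → ℂ) (k : ℕ) : ℂ := iteratedDeriv k F 0 / (Nat.factorial k : ℂ)

lemma cis_mul_conj (θ : ℝ) : cis θ * (starRingEnd ℂ) (cis θ) = 1 := by
  rw [Complex.mul_conj, Complex.normSq_eq_norm_sq, norm_cis]
  simp

lemma cis_ne_zero (θ : ℝ) : cis θ ≠ 0 := by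
  intro h
  have := norm_cis θ
  rw [h, norm_zero] at this
  exact zero_ne_one this

lemma conj_cis (θ : ℝ) : (starRingEnd ℂ) (cis θ) = (cis θ)⁻¹ :=
  eq_inv_of_mul_eq_one_right (cis_mul_conj θ)

lemma coef {F : ℂ → ℂ} {ρ : ℝ} (hρ : 0 < ρ) (hF : DifferentiableOn ℂ F (closedBall 0 ρ)) (k : ℕ) :
    ∫ θ in (-π)..π, F (ρ * cis θ) * (starRingEnd ℂ) (cis θ) ^ k = 2 * π * ρ ^ k * tc F k := by
  have h1 := hF.circleIntegral_one_div_sub_center_pow_smul hρ k
  rw [circleIntegral] at h1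
  have hρ' : (ρ : ℂ) ≠ 0 := by exact_mod_cast hρ.ne'
  have h2 : ∀ θ : ℝ, deriv (circleMap 0 ρ) θ •
      ((1 / (circleMap 0 ρ θ - 0) ^ (k + 1)) • F (circleMap 0 ρ θ)) =
      (Complex.I / ρ ^ k) * (F (ρ * cis θ) * (starRingEnd ℂ) (cis θ) ^ k) := by
    intro θ
    have hc : circleMap 0 ρ θ = ρ * cis θ := by
      unfold circleMap cis; simp
    rw [deriv_circleMap, hc, sub_zero, conj_cis, smul_eq_mul, smul_eq_mul, mul_pow, inv_pow]
    have := cis_ne_zero θ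
    rw [pow_succ, pow_succ]
    field_simp
  simp only [h2] at h1
  rw [intervalIntegral.integral_const_mul] at h1
  have hper : Function.Periodic (fun θ : ℝ => F (ρ * cis θ) * (starRingEnd ℂ) (cis θ) ^ k) (2 * π) := by
    intro θ
    simp only
    rw [cis_periodic θ]
  have h4 := hper.intervalIntegral_add_eq (-π) 0
  have e1 : -π + 2 * π = π := by ring
  rw [e1, zero_add] at h4
  rw [h4]
  unfold tc
  rw [smul_eq_mul] at h1
  have hI := Complex.I_ne_zero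
  have hfac : ((Nat.factorial k : ℕ) : ℂ) ≠ 0 := by exact_mod_cast Nat.factorial_ne_zero k
  have h5 : (∫ θ in (0:ℝ)..2 * π, F (ρ * cis θ) * (starRingEnd ℂ) (cis θ) ^ k) =
      (ρ ^ k / Complex.I) * (Complex.I / ρ ^ k *
        ∫ θ in (0:ℝ)..2 * π, F (ρ * cis θ) * (starRingEnd ℂ) (cis θ) ^ k) := by
    field_simp
  rw [h5, h1]
  field_simp

lemma tc_deriv (F : ℂ → ℂ) (m : ℕ) : tc (deriv F) m = (m + 1) * tc F (m + 1) := by
  unfold tc
  rw [← iteratedDeriv_succ', Nat.factorial_succ]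
  have h1 : ((Nat.factorial m : ℕ) : ℂ) ≠ 0 := by exact_mod_cast Nat.factorial_ne_zero m
  have h2 : ((m : ℂ) + 1) ≠ 0 := by exact_mod_cast Nat.succ_ne_zero m
  push_cast
  field_simp

/-- left-hand side of the duality identity. -/
noncomputable def lhsD (φ k : ℂ → ℂ) (r : ℝ) : ℂ :=
  ∫ θ in (-π)..π, φ (r * cis θ) * (starRingEnd ℂ) ((r * cis θ) * k (r * cis θ))

/-- right-hand side of the duality identity. -/
noncomputable def rhsD (φ k : ℂ → ℂ) (r : ℝ) : ℂ :=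
  ∫ z in ball (0:ℂ) r, ((1 - ‖z‖ ^ 2 / r ^ 2 : ℝ) : ℂ) * (deriv φ z * (starRingEnd ℂ) (2 * k z + z * deriv k z))

lemma mono_rhs {φ : ℂ → ℂ} (hφ : DifferentiableOn ℂ φ (ball 0 1)) {r : ℝ} (hr0 : 0 < r)
    (hr1 : r < 1) (m : ℕ) :
    ∫ z in ball (0:ℂ) r, ((1 - ‖z‖ ^ 2 / r ^ 2 : ℝ) : ℂ) * (deriv φ z * (starRingEnd ℂ) (z ^ m)) =
      2 * π * r ^ (2 * m + 2) * tc (deriv φ) m * (1 / (2 * ((m:ℂ) + 1) * ((m:ℂ) + 2))) := by
  have hsub : closedBall (0:ℂ) r ⊆ ball 0 1 := closedBall_subset_ball hr1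
  have hd : DifferentiableOn ℂ (deriv φ) (ball 0 1) := hφ.deriv isOpen_ball
  have hcont : ContinuousOn (fun z : ℂ => ((1 - ‖z‖ ^ 2 / r ^ 2 : ℝ) : ℂ) *
      (deriv φ z * (starRingEnd ℂ) (z ^ m))) (closedBall 0 r) := by
    apply ContinuousOn.mul
    · exact (Complex.continuous_ofReal.comp
        (continuous_const.sub ((continuous_norm.pow 2).div_const _))).continuousOn
    · exact (hd.continuousOn.mono hsub).mul
        ((Complex.continuous_conj.comp (continuous_pow m)).continuousOn)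
  rw [integral_ball_polar _ hr0.le hcont]
  have hinner : ∀ ρ ∈ uIcc (0:ℝ) r, (∫ θ in (-π)..π, ρ • (((1 - ‖(ρ:ℂ) * cis θ‖ ^ 2 / r ^ 2 : ℝ) : ℂ) *
      (deriv φ (ρ * cis θ) * (starRingEnd ℂ) ((ρ * cis θ) ^ m)))) =
      (2 * π * tc (deriv φ) m) * ((ρ ^ (2 * m + 1) * (1 - ρ ^ 2 / r ^ 2) : ℝ) : ℂ) := by
    intro ρ hρ
    rw [uIcc_of_le hr0.le] at hρ
    rcases hρ.1.eq_or_lt with h0 | hpos
    · rw [← h0]
      simp
    · have h1 : ∀ θ : ℝ, ρ • (((1 - ‖(ρ:ℂ) * cis θ‖ ^ 2 / r ^ 2 : ℝ) : ℂ) *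
          (deriv φ (ρ * cis θ) * (starRingEnd ℂ) ((ρ * cis θ) ^ m))) =
          ((ρ ^ (m + 1) * (1 - ρ ^ 2 / r ^ 2) : ℝ) : ℂ) * (deriv φ (ρ * cis θ) * (starRingEnd ℂ) (cis θ) ^ m) := by
        intro θ
        rw [norm_mul_cis hρ.1, Complex.real_smul, map_pow, map_mul, Complex.conj_ofReal, mul_pow]
        push_cast
        ring
      simp only [h1]
      rw [intervalIntegral.integral_const_mul, coef hpos (hd.mono
        ((closedBall_subset_closedBall hρ.2).trans hsub)) m]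
      push_cast
      ring
  rw [intervalIntegral.integral_congr hinner, intervalIntegral.integral_const_mul,
    intervalIntegral.integral_ofReal]
  have h3 : ∫ ρ in (0:ℝ)..r, ρ ^ (2 * m + 1) * (1 - ρ ^ 2 / r ^ 2) =
      r ^ (2 * m + 2) * (1 / (2 * ((m:ℝ) + 1) * ((m:ℝ) + 2))) := by
    have e : ∀ ρ : ℝ, ρ ^ (2 * m + 1) * (1 - ρ ^ 2 / r ^ 2) =
        ρ ^ (2 * m + 1) - (1 / r ^ 2) * ρ ^ (2 * m + 3) := by
      intro ρ
      rw [pow_add ρ (2 * m) 3, pow_succ ρ (2 * m)]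
      ring
    simp only [e]
    rw [intervalIntegral.integral_sub (Continuous.intervalIntegrable (by fun_prop) _ _)
      (Continuous.intervalIntegrable (by fun_prop) _ _), intervalIntegral.integral_const_mul,
      integral_pow, integral_pow]
    have hr : r ≠ 0 := hr0.ne'
    have e1 : r ^ (2 * m + 1 + 1) = r ^ (2 * m + 2) := rfl
    have e2 : r ^ (2 * m + 3 + 1) = r ^ (2 * m + 2) * r ^ 2 := by rw [← pow_add]
    rw [e1, e2]
    simp only [ne_eq, Nat.add_eq_zero_iff, one_ne_zero, and_false, not_false_eq_true, zero_pow,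
      sub_zero]
    push_cast
    field_simp
    ring
  rw [h3]
  push_cast
  ring

lemma id_monomial {φ : ℂ → ℂ} (hφ : DifferentiableOn ℂ φ (ball 0 1)) {r : ℝ} (hr0 : 0 < r)
    (hr1 : r < 1) (m : ℕ) (a : ℂ) :
    lhsD φ (fun z => a * z ^ m) r = 2 * rhsD φ (fun z => a * z ^ m) r := by
  have hsub : closedBall (0:ℂ) r ⊆ ball 0 1 := closedBall_subset_ball hr1
  have hL : lhsD φ (fun z => a * z ^ m) r =
      (starRingEnd ℂ) a * r ^ (m + 1) * (2 * π * r ^ (m + 1) * tc φ (m + 1)) := by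
    unfold lhsD
    have h1 : ∀ θ : ℝ, φ (r * cis θ) * (starRingEnd ℂ) ((r * cis θ) * (a * (r * cis θ) ^ m)) =
        ((starRingEnd ℂ) a * r ^ (m + 1)) * (φ (r * cis θ) * (starRingEnd ℂ) (cis θ) ^ (m + 1)) := by
      intro θ
      simp only [map_mul, map_pow, Complex.conj_ofReal]
      ring
    simp only [h1]
    rw [intervalIntegral.integral_const_mul, coef hr0 (hφ.mono hsub)]
  have hR : rhsD φ (fun z => a * z ^ m) r =
      (starRingEnd ℂ) a * ((m:ℂ) + 2) * (2 * π * r ^ (2 * m + 2) * tc (deriv φ) m *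
        (1 / (2 * ((m:ℂ) + 1) * ((m:ℂ) + 2)))) := by
    unfold rhsD
    rw [← mono_rhs hφ hr0 hr1 m, ← integral_const_mul]
    apply integral_congr_ae
    refine Eventually.of_forall ?_
    intro z
    have hder : deriv (fun z : ℂ => a * z ^ m) z = a * (m * z ^ (m - 1)) :=
      ((hasDerivAt_pow m z).const_mul a).deriv
    have h2 : 2 * (a * z ^ m) + z * deriv (fun z : ℂ => a * z ^ m) z = a * ((m + 2) * z ^ m) := by
      rw [hder]
      rcases Nat.eq_zero_or_pos m with h0 | hpos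
      · subst h0; simp; ring
      · obtain ⟨j, rfl⟩ : ∃ j, m = j + 1 := ⟨m - 1, by omega⟩
        simp only [Nat.add_sub_cancel, pow_succ]
        ring
    simp only [h2]
    simp only [map_mul, map_add, Complex.conj_natCast]
    have h3 : (starRingEnd ℂ) (2:ℂ) = 2 := Complex.conj_ofNat 2
    rw [h3]
    ring
  rw [hL, hR, tc_deriv]
  have h1 : ((m:ℂ) + 1) ≠ 0 := by exact_mod_cast Nat.succ_ne_zero m
  have h2 : ((m:ℂ) + 2) ≠ 0 := by exact_mod_cast Nat.succ_ne_zero (m + 1)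
  have h3 : (r:ℂ) ^ (2 * m + 2) = r ^ (m + 1) * r ^ (m + 1) := by rw [← pow_add]; congr 1; ring
  rw [h3]
  field_simp

end Pool.Agent.H57.Cyc
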