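import Mathlib
import Pool.Agent.H57.Cyc.Dual

set_option autoImplicit false

namespace Pool.Agent.H57.Cyc

open Filter Topology MeasureTheory Real Metric Set
open scoped NNReal ENNReal

lemma cont_circ {F : ℂ → ℂ} {r : ℝ} (hr0 : 0 ≤ r) (hF : ContinuousOn F (closedBall 0 r)) :
    Continuous (fun θ : ℝ => F (r * cis θ)) := by
  have hc : Continuous (fun θ : ℝ => (r : ℂ) * cis θ) := continuous_const.mul continuous_cis
  apply hF.comp_continuous hc
  intro θ
  rw [mem_closedBall_zero_iff, norm_mul_cis hr0]

lemma cont_lhs {φ k : ℂ → ℂ} {r : ℝ} (hr0 : 0 ≤ r) (hφ : ContinuousOn φ (closedBall 0 r))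
    (hk : ContinuousOn k (closedBall 0 r)) :
    Continuous (fun θ : ℝ => φ (r * cis θ) * (starRingEnd ℂ) ((r * cis θ) * k (r * cis θ))) := by
  have hc : Continuous (fun θ : ℝ => (r : ℂ) * cis θ) := continuous_const.mul continuous_cis
  exact (cont_circ hr0 hφ).mul (Complex.continuous_conj.comp (hc.mul (cont_circ hr0 hk)))

lemma cont_rhs {D k k' : ℂ → ℂ} {r : ℝ} (hD : ContinuousOn D (closedBall 0 r))
    (hk : ContinuousOn k (closedBall 0 r)) (hk' : ContinuousOn k' (closedBall 0 r)) :
    ContinuousOn (fun z : ℂ => ((1 - ‖z‖ ^ 2 / r ^ 2 : ℝ) : ℂ) *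
      (D z * (starRingEnd ℂ) (2 * k z + z * k' z))) (closedBall 0 r) := by
  apply ContinuousOn.mul
  · exact (Complex.continuous_ofReal.comp
      (continuous_const.sub ((continuous_norm.pow 2).div_const _))).continuousOn
  · apply hD.mul
    exact Complex.continuous_conj.comp_continuousOn
      ((continuousOn_const.mul hk).add (continuousOn_id.mul hk'))

lemma int_ball' {E : Type*} [NormedAddCommGroup E] {f : ℂ → E} {r : ℝ}
    (hf : ContinuousOn f (closedBall 0 r)) : IntegrableOn f (ball (0:ℂ) r) volume :=
  (hf.integrableOn_compact (isCompact_closedBall (0:ℂ) r)).mono_set ball_subset_closedBall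

lemma id_poly {φ : ℂ → ℂ} (hφ : DifferentiableOn ℂ φ (ball 0 1)) {r : ℝ} (hr0 : 0 < r)
    (hr1 : r < 1) (P : Polynomial ℂ) :
    lhsD φ (fun z => P.eval z) r = 2 * rhsD φ (fun z => P.eval z) r := by
  have hsub : closedBall (0:ℂ) r ⊆ ball 0 1 := closedBall_subset_ball hr1
  have hφc : ContinuousOn φ (closedBall 0 r) := hφ.continuousOn.mono hsub
  have hφdc : ContinuousOn (deriv φ) (closedBall 0 r) :=
    (hφ.deriv isOpen_ball).continuousOn.mono hsub
  induction P using Polynomial.induction_on' with
  | add p q hp hq =>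
    have h1 : lhsD φ (fun z => (p + q).eval z) r =
        lhsD φ (fun z => p.eval z) r + lhsD φ (fun z => q.eval z) r := by
      unfold lhsD
      rw [← intervalIntegral.integral_add
        ((cont_lhs hr0.le hφc p.continuous.continuousOn).intervalIntegrable _ _)
        ((cont_lhs hr0.le hφc q.continuous.continuousOn).intervalIntegrable _ _)]
      congr 1
      funext θ
      simp only [Polynomial.eval_add, map_mul, map_add]
      ring
    have h2 : rhsD φ (fun z => (p + q).eval z) r =
        rhsD φ (fun z => p.eval z) r + rhsD φ (fun z => q.eval z) r := by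
      unfold rhsD
      simp only [Polynomial.deriv]
      rw [← integral_add
        (int_ball' (cont_rhs hφdc p.continuous.continuousOn p.derivative.continuous.continuousOn))
        (int_ball' (cont_rhs hφdc q.continuous.continuousOn q.derivative.continuous.continuousOn))]
      congr 1
      funext z
      simp only [Polynomial.eval_add, map_mul, map_add, Polynomial.derivative_add]
      ring
    rw [h1, h2, hp, hq]
    ring
  | monomial n a =>
    have : (fun z => (Polynomial.monomial n a).eval z) = fun z => a * z ^ n := by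
      funext z
      rw [Polynomial.eval_monomial]
    rw [this]
    exact id_monomial hφ hr0 hr1 n a

lemma taylor_approx {k : ℂ → ℂ} (hk : DifferentiableOn ℂ k (ball 0 1)) {r : ℝ} (hr0 : 0 < r)
    (hr1 : r < 1) :
    ∃ P : ℕ → Polynomial ℂ,
      TendstoUniformlyOn (fun n z => (P n).eval z) k atTop (closedBall 0 r) ∧
      TendstoUniformlyOn (fun n z => (P n).derivative.eval z) (deriv k) atTop (closedBall 0 r) := by
  set R : ℝ := (1 + r) / 2 with hR
  have hrR : r < R := by linarith
  have hR0 : 0 < R := by linarith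
  have hR1 : R < 1 := by linarith
  set R' : ℝ≥0 := ⟨R, hR0.le⟩ with hR'
  have hps := DifferentiableOn.hasFPowerSeriesOnBall (R := R') (c := 0) (f := k)
    (hk.mono (by
      rw [hR']
      exact closedBall_subset_ball hR1)) (by exact_mod_cast hR0)
  set ps := cauchyPowerSeries k 0 R' with hpsdef
  have hlu := hps.tendstoLocallyUniformlyOn
  simp only [zero_add] at hlu
  have hball : eball (0:ℂ) (R' : ℝ≥0∞) = ball 0 R := by
    rw [Metric.eball_coe]
    rfl
  rw [hball] at hlu
  let P : ℕ → Polynomial ℂ := fun n =>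
    ∑ i ∈ Finset.range n, Polynomial.monomial i (ps.coeff i)
  have hP : ∀ n z, (P n).eval z = ps.partialSum n z := by
    intro n z
    simp only [P, Polynomial.eval_finsetSum, Polynomial.eval_monomial,
      FormalMultilinearSeries.partialSum]
    apply Finset.sum_congr rfl
    intro i _
    rw [FormalMultilinearSeries.apply_eq_pow_smul_coeff, smul_eq_mul, mul_comm]
  have hlu' : TendstoLocallyUniformlyOn (fun n z => (P n).eval z) k atTop (ball 0 R) := by
    simp only [hP]
    exact hlu
  have hlud := hlu'.deriv (Eventually.of_forall fun n => (P n).differentiable.differentiableOn)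
    isOpen_ball
  refine ⟨P, ?_, ?_⟩
  · exact (tendstoLocallyUniformlyOn_iff_forall_isCompact isOpen_ball).1 hlu' _
      (closedBall_subset_ball hrR) (isCompact_closedBall _ _)
  · have h := (tendstoLocallyUniformlyOn_iff_forall_isCompact isOpen_ball).1 hlud _
      (closedBall_subset_ball hrR) (isCompact_closedBall _ _)
    have e : (deriv ∘ fun (n : ℕ) (z : ℂ) => (P n).eval z) =
        fun n z => (P n).derivative.eval z := by
      funext n z
      exact Polynomial.deriv _
    rw [e] at h
    exact h

lemma id_general {φ k : ℂ → ℂ} (hφ : DifferentiableOn ℂ φ (ball 0 1))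
    (hk : DifferentiableOn ℂ k (ball 0 1)) {r : ℝ} (hr0 : 0 < r) (hr1 : r < 1) :
    lhsD φ k r = 2 * rhsD φ k r := by
  have hsub : closedBall (0:ℂ) r ⊆ ball 0 1 := closedBall_subset_ball hr1
  have hφc : ContinuousOn φ (closedBall 0 r) := hφ.continuousOn.mono hsub
  have hφdc : ContinuousOn (deriv φ) (closedBall 0 r) :=
    (hφ.deriv isOpen_ball).continuousOn.mono hsub
  have hkc : ContinuousOn k (closedBall 0 r) := hk.continuousOn.mono hsub
  have hkdc : ContinuousOn (deriv k) (closedBall 0 r) :=
    (hk.deriv isOpen_ball).continuousOn.mono hsub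
  obtain ⟨B1, hB1⟩ := (isCompact_closedBall (0:ℂ) r).exists_bound_of_continuousOn hφc
  obtain ⟨B2, hB2⟩ := (isCompact_closedBall (0:ℂ) r).exists_bound_of_continuousOn hφdc
  obtain ⟨B3, hB3⟩ := (isCompact_closedBall (0:ℂ) r).exists_bound_of_continuousOn hkc
  obtain ⟨B4, hB4⟩ := (isCompact_closedBall (0:ℂ) r).exists_bound_of_continuousOn hkdc
  have h0m : (0:ℂ) ∈ closedBall (0:ℂ) r := by simp [hr0.le]
  have hB10 : 0 ≤ B1 := (norm_nonneg _).trans (hB1 0 h0m)
  have hB20 : 0 ≤ B2 := (norm_nonneg _).trans (hB2 0 h0m)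
  have hB30 : 0 ≤ B3 := (norm_nonneg _).trans (hB3 0 h0m)
  have hB40 : 0 ≤ B4 := (norm_nonneg _).trans (hB4 0 h0m)
  obtain ⟨P, hP, hP'⟩ := taylor_approx hk hr0 hr1
  have hmemc : ∀ θ : ℝ, (r:ℂ) * cis θ ∈ closedBall (0:ℂ) r := by
    intro θ
    rw [mem_closedBall_zero_iff, norm_mul_cis hr0.le]
  have b1 : ∀ᶠ n in atTop, ∀ z ∈ closedBall (0:ℂ) r, ‖(P n).eval z‖ ≤ B3 + 1 := by
    filter_upwards [Metric.tendstoUniformlyOn_iff.1 hP 1 one_pos] with n hn z hz
    have h1 := hn z hz
    rw [dist_eq_norm] at h1
    have h2 : ‖(P n).eval z‖ ≤ ‖k z‖ + ‖k z - (P n).eval z‖ := by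
      have := norm_sub_le (k z) (k z - (P n).eval z)
      rwa [sub_sub_cancel] at this
    linarith [hB3 z hz]
  have b2 : ∀ᶠ n in atTop, ∀ z ∈ closedBall (0:ℂ) r, ‖(P n).derivative.eval z‖ ≤ B4 + 1 := by
    filter_upwards [Metric.tendstoUniformlyOn_iff.1 hP' 1 one_pos] with n hn z hz
    have h1 := hn z hz
    rw [dist_eq_norm] at h1
    have h2 : ‖(P n).derivative.eval z‖ ≤ ‖deriv k z‖ + ‖deriv k z - (P n).derivative.eval z‖ := by
      have := norm_sub_le (deriv k z) (deriv k z - (P n).derivative.eval z)
      rwa [sub_sub_cancel] at this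
    linarith [hB4 z hz]
  have hL : Tendsto (fun n => lhsD φ (fun z => (P n).eval z) r) atTop (𝓝 (lhsD φ k r)) := by
    unfold lhsD
    apply intervalIntegral.tendsto_integral_filter_of_dominated_convergence
      (fun _ => B1 * (r * (B3 + 1)))
    · refine Eventually.of_forall fun n => ?_
      exact (cont_lhs hr0.le hφc (P n).continuous.continuousOn).aestronglyMeasurable
    · filter_upwards [b1] with n hn
      refine Eventually.of_forall fun θ _ => ?_
      rw [norm_mul, RCLike.norm_conj, norm_mul, norm_mul_cis hr0.le]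
      apply mul_le_mul (hB1 _ (hmemc θ)) _ (by positivity) hB10
      exact mul_le_mul_of_nonneg_left (hn _ (hmemc θ)) hr0.le
    · exact continuous_const.intervalIntegrable _ _
    · refine Eventually.of_forall fun θ _ => ?_
      apply Tendsto.const_mul
      apply (Complex.continuous_conj.tendsto _).comp
      apply Tendsto.const_mul
      exact hP.tendsto_at (hmemc θ)
  have hRr : Tendsto (fun n => rhsD φ (fun z => (P n).eval z) r) atTop (𝓝 (rhsD φ k r)) := by
    unfold rhsD
    simp only [Polynomial.deriv]
    apply tendsto_integral_filter_of_dominated_convergence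
      (fun _ => 1 * (B2 * (2 * (B3 + 1) + r * (B4 + 1))))
    · refine Eventually.of_forall fun n => ?_
      exact (int_ball' (cont_rhs hφdc (P n).continuous.continuousOn
        (P n).derivative.continuous.continuousOn)).aestronglyMeasurable
    · filter_upwards [b1, b2] with n hn1 hn2
      rw [ae_restrict_iff' measurableSet_ball]
      refine Eventually.of_forall fun z hz => ?_
      have hz1 : ‖z‖ < r := by simpa using hz
      have hzc : z ∈ closedBall (0:ℂ) r := ball_subset_closedBall hz
      rw [norm_mul, norm_mul, RCLike.norm_conj]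
      have hq : ‖z‖ ^ 2 / r ^ 2 ≤ 1 := by
        rw [div_le_one (by positivity)]
        exact pow_le_pow_left₀ (norm_nonneg _) hz1.le 2
      have hq0 : 0 ≤ ‖z‖ ^ 2 / r ^ 2 := by positivity
      apply mul_le_mul _ _ (by positivity) zero_le_one
      · rw [Complex.norm_real, Real.norm_of_nonneg (by linarith)]
        linarith
      · apply mul_le_mul (hB2 z hzc) _ (norm_nonneg _) hB20
        refine (norm_add_le _ _).trans ?_
        rw [norm_mul, norm_mul]
        have h2 : ‖(2:ℂ)‖ = 2 := by simp
        rw [h2]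
        apply add_le_add
        · exact mul_le_mul_of_nonneg_left (hn1 z hzc) (by norm_num)
        · exact mul_le_mul hz1.le (hn2 z hzc) (norm_nonneg _) hr0.le
    · exact int_ball' continuousOn_const
    · rw [ae_restrict_iff' measurableSet_ball]
      refine Eventually.of_forall fun z hz => ?_
      have hzc : z ∈ closedBall (0:ℂ) r := ball_subset_closedBall hz
      apply Tendsto.const_mul
      apply Tendsto.const_mul
      apply (Complex.continuous_conj.tendsto _).comp
      exact ((hP.tendsto_at hzc).const_mul 2).add ((hP'.tendsto_at hzc).const_mul z)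
  have heq : ∀ n, lhsD φ (fun z => (P n).eval z) r = 2 * rhsD φ (fun z => (P n).eval z) r :=
    fun n => id_poly hφ hr0 hr1 (P n)
  simp only [heq] at hL
  exact tendsto_nhds_unique hL (hRr.const_mul 2)

end Pool.Agent.H57.Cyc
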