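import Mathlib
import Pool.Agent.H57.Cyc.Polar

set_option autoImplicit false

namespace Pool.Agent.H57.Cyc

open Filter Topology MeasureTheory Real Metric Set

lemma int_ball {E : Type*} [NormedAddCommGroup E] {f : ℂ → E} (hf : Continuous f) :
    IntegrableOn f (ball (0:ℂ) 1) volume :=
  (hf.continuousOn.integrableOn_compact (isCompact_closedBall (0:ℂ) 1)).mono_set
    ball_subset_closedBall

/-- The weighted integral `∫_𝔻 (1-|z|)^(p-1) |D z|^p dA`. -/
noncomputable def wInt (p : ℝ) (D : ℂ → ℂ) : ℝ :=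
  ∫ z in ball (0:ℂ) 1, (1 - ‖z‖) ^ (p - 1) * ‖D z‖ ^ p

lemma unif_cont_real {G : ℂ → ℝ} (hG : Continuous G) {η : ℝ} (hη : 0 < η) :
    ∃ C : ℝ, 0 ≤ C ∧ ∀ z w : ℂ, ‖z‖ ≤ 1 → ‖w‖ ≤ 1 → G z ≤ G w + η + C * ‖z - w‖ := by
  have h := (isCompact_closedBall (0:ℂ) 1).uniformContinuousOn_of_continuous hG.continuousOn
  rw [Metric.uniformContinuousOn_iff] at h
  obtain ⟨δ, hδ, h⟩ := h η hη
  obtain ⟨B, hB⟩ := (isCompact_closedBall (0:ℂ) 1).exists_bound_of_continuousOn hG.continuousOn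
  have hB0 : 0 ≤ B := (norm_nonneg _).trans (hB 0 (by simp))
  refine ⟨2 * B / δ, by positivity, ?_⟩
  intro z w hz hw
  have hz' : z ∈ closedBall (0:ℂ) 1 := by simpa using hz
  have hw' : w ∈ closedBall (0:ℂ) 1 := by simpa using hw
  by_cases hd : ‖z - w‖ < δ
  · have h1 := h z hz' w hw' (by rwa [dist_eq_norm])
    rw [Real.dist_eq] at h1
    have h2 := (abs_lt.1 h1).2
    have : 0 ≤ 2 * B / δ * ‖z - w‖ := by positivity
    linarith
  · push Not at hd
    have h1 := hB z hz'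
    have h2 := hB w hw'
    rw [Real.norm_eq_abs] at h1 h2
    have h3 := (abs_le.1 h1).2
    have h4 := (abs_le.1 h2).1
    have h5 : 2 * B ≤ 2 * B / δ * ‖z - w‖ := by
      rw [div_mul_eq_mul_div, le_div_iff₀ hδ]
      exact mul_le_mul_of_nonneg_left hd (by positivity)
    linarith

lemma approx_id (G : ℂ → ℝ) (hG : Continuous G) (h0 : ∀ θ, 0 ≤ G (cis θ)) {ε : ℝ} (hε : 0 < ε) :
    ∀ᶠ n : ℕ in atTop, ∫ z in ball (0:ℂ) 1, (n:ℝ) * ‖z‖ ^ (n - 1) * G z ≤
      (∫ θ in (-π)..π, G (cis θ)) + ε := by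
  obtain ⟨C, hC, hGC⟩ := unif_cont_real hG (η := ε / (4 * π)) (by positivity)
  set I := ∫ θ in (-π)..π, G (cis θ) with hI
  have hπ := Real.pi_pos
  have hI0 : 0 ≤ I := intervalIntegral.integral_nonneg (by linarith) (fun θ _ => h0 θ)
  have hlim : Tendsto (fun n : ℕ => 2 * π * C / ((n:ℝ) + 1)) atTop (𝓝 0) :=
    tendsto_const_nhds.div_atTop (tendsto_atTop_add_const_right _ _ tendsto_natCast_atTop_atTop)
  filter_upwards [hlim.eventually (gt_mem_nhds (show (0:ℝ) < ε / 2 by positivity)),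
    eventually_gt_atTop 0] with n hn hn0
  have hcont : Continuous (fun z : ℂ => (n:ℝ) * ‖z‖ ^ (n - 1) * G z) := by fun_prop
  rw [integral_ball_polar _ zero_le_one hcont.continuousOn]
  have hinner : ∀ r ∈ Icc (0:ℝ) 1, ∫ θ in (-π)..π, r • ((n:ℝ) * ‖(r:ℂ) * cis θ‖ ^ (n - 1) *
      G (r * cis θ)) ≤ (n * r ^ n) * (I + ε / 2 + 2 * π * C * (1 - r)) := by
    intro r hr
    have hcr : Continuous (fun θ => G ((r:ℂ) * cis θ)) :=
      hG.comp (continuous_const.mul continuous_cis)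
    have h1 : ∀ θ ∈ Icc (-π) π, r • ((n:ℝ) * ‖(r:ℂ) * cis θ‖ ^ (n - 1) * G (r * cis θ)) ≤
        (n * r ^ n) * (G (cis θ) + (ε / (4 * π) + C * (1 - r))) := by
      intro θ _
      rw [norm_mul_cis hr.1, smul_eq_mul]
      have h2 := hGC (r * cis θ) (cis θ) (by rw [norm_mul_cis hr.1]; exact hr.2) (norm_cis θ).le
      have h3 : ‖(r:ℂ) * cis θ - cis θ‖ = 1 - r := by
        have : (r:ℂ) * cis θ - cis θ = ((r - 1 : ℝ) : ℂ) * cis θ := by push_cast; ring
        rw [this, norm_mul, norm_cis, mul_one, Complex.norm_real, Real.norm_eq_abs, abs_sub_comm,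
          abs_of_nonneg (by linarith [hr.2])]
      rw [h3] at h2
      have h4 : r * ((n:ℝ) * r ^ (n - 1) * G (r * cis θ)) = (n * r ^ n) * G (r * cis θ) := by
        obtain ⟨m, rfl⟩ : ∃ m, n = m + 1 := ⟨n - 1, by omega⟩
        simp only [Nat.add_sub_cancel, pow_succ]
        ring
      rw [h4]
      apply mul_le_mul_of_nonneg_left _ (mul_nonneg (Nat.cast_nonneg _) (pow_nonneg hr.1 _))
      linarith
    have hcG : Continuous (fun θ => G (cis θ)) := hG.comp continuous_cis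
    have h2 := intervalIntegral.integral_mono_on (a := -π) (b := π) (μ := volume) (by linarith)
      (f := fun θ => r • ((n:ℝ) * ‖(r:ℂ) * cis θ‖ ^ (n - 1) * G (r * cis θ)))
      (g := fun θ => (n * r ^ n) * (G (cis θ) + (ε / (4 * π) + C * (1 - r))))
      ((hcont.comp (continuous_const.mul continuous_cis)).const_smul r |>.intervalIntegrable _ _)
      ((continuous_const.mul (hcG.add continuous_const)).intervalIntegrable _ _) h1
    refine h2.trans (le_of_eq ?_)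
    rw [intervalIntegral.integral_const_mul, intervalIntegral.integral_add
      (hcG.intervalIntegrable _ _) (continuous_const.intervalIntegrable _ _),
      intervalIntegral.integral_const, ← hI, smul_eq_mul]
    field_simp
    ring
  have hc1 : Continuous (fun r : ℝ => ∫ θ in (-π)..π, r • ((n:ℝ) * ‖(r:ℂ) * cis θ‖ ^ (n - 1) *
      G (r * cis θ))) := by
    apply intervalIntegral.continuous_parametric_intervalIntegral_of_continuous'
    have : Continuous (fun p : ℝ × ℝ => (p.1:ℂ) * cis p.2) :=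
      (Complex.continuous_ofReal.comp continuous_fst).mul (continuous_cis.comp continuous_snd)
    exact continuous_fst.smul (hcont.comp this)
  have hc2 : Continuous (fun r : ℝ => ((n:ℝ) * r ^ n) * (I + ε / 2 + 2 * π * C * (1 - r))) := by
    fun_prop
  have h5 := intervalIntegral.integral_mono_on (a := 0) (b := 1) (μ := volume) (by norm_num)
    (hc1.intervalIntegrable _ _) (hc2.intervalIntegrable _ _) hinner
  refine h5.trans ?_
  have h6 : ∫ r in (0:ℝ)..1, ((n:ℝ) * r ^ n) * (I + ε / 2 + 2 * π * C * (1 - r)) =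
      (n / (n + 1)) * (I + ε / 2) + 2 * π * C * (n / ((n + 1) * (n + 2))) := by
    have e : ∀ r : ℝ, ((n:ℝ) * r ^ n) * (I + ε / 2 + 2 * π * C * (1 - r)) =
        (n * (I + ε / 2 + 2 * π * C)) * r ^ n - (n * (2 * π * C)) * r ^ (n + 1) := by
      intro r; ring
    simp only [e]
    rw [intervalIntegral.integral_sub
      (Continuous.intervalIntegrable (by fun_prop) _ _)
      (Continuous.intervalIntegrable (by fun_prop) _ _),
      intervalIntegral.integral_const_mul, intervalIntegral.integral_const_mul,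
      integral_pow, integral_pow]
    simp only [one_pow, ne_eq, Nat.add_eq_zero_iff, one_ne_zero, and_false, not_false_eq_true,
      zero_pow, sub_zero]
    push_cast
    field_simp
    ring
  rw [h6]
  have hn1 : (0:ℝ) < n + 1 := by positivity
  have h7 : (n / (n + 1)) * (I + ε / 2) ≤ I + ε / 2 := by
    apply mul_le_of_le_one_left (by linarith)
    rw [div_le_one hn1]; linarith
  have h8 : 2 * π * C * (n / ((n + 1) * (n + 2))) ≤ 2 * π * C / ((n:ℝ) + 1) := by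
    rw [div_eq_mul_inv (2 * π * C)]
    apply mul_le_mul_of_nonneg_left _ (by positivity)
    rw [← one_div, div_le_div_iff₀ (by positivity) hn1]
    nlinarith
  linarith

/-- Elementary inequality `(a+b)^p ≤ a^p + p 2^(p-1) (a^(p-1) b + b^p)`. -/
lemma add_rpow_le {p a b : ℝ} (hp : 1 < p) (ha : 0 ≤ a) (hb : 0 ≤ b) :
    (a + b) ^ p ≤ a ^ p + p * 2 ^ (p - 1) * (a ^ (p - 1) * b + b ^ p) := by
  -- step 1: `(a+b)^p - a^p ≤ p (a+b)^(p-1) b`
  have h1 : (a + b) ^ p ≤ a ^ p + p * ((a + b) ^ (p - 1) * b) := by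
    rcases hb.eq_or_lt with rfl | hb'
    · simp
    have hab : 0 < a + b := by linarith
    -- Bernoulli: `(1 - x)^p ≥ 1 - p x` with `x = b/(a+b)`
    have hx : -1 ≤ -(b / (a + b)) := by
      rw [neg_le_neg_iff, div_le_one hab]; linarith
    have h2 := one_add_mul_self_le_rpow_one_add hx hp.le
    have h3 : 1 + -(b / (a + b)) = a / (a + b) := by field_simp; ring
    rw [h3, Real.div_rpow ha hab.le] at h2
    have h4 : 0 < (a + b) ^ p := Real.rpow_pos_of_pos hab p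
    rw [le_div_iff₀ h4] at h2
    have h5 : (a + b) ^ p = (a + b) ^ (p - 1) * (a + b) := by
      rw [Real.rpow_sub_one hab.ne']; field_simp
    have h6 : (1 + p * -(b / (a + b))) * (a + b) ^ p = (a + b) ^ p - p * ((a + b) ^ (p - 1) * b) := by
      have h7 : b / (a + b) * (a + b) ^ p = (a + b) ^ (p - 1) * b := by
        rw [h5]; field_simp
      have h8 : (1 + p * -(b / (a + b))) * (a + b) ^ p =
          (a + b) ^ p - p * (b / (a + b) * (a + b) ^ p) := by ring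
      rw [h8, h7]
    rw [h6] at h2
    linarith
  -- step 2
  have h2 : (a + b) ^ (p - 1) * b ≤ 2 ^ (p - 1) * (a ^ (p - 1) * b + b ^ p) := by
    have hp1 : 0 ≤ p - 1 := by linarith
    have hbp : b ^ (p - 1) * b = b ^ p := by
      rcases hb.eq_or_lt with rfl | hb'
      · rw [mul_zero, Real.zero_rpow (by linarith)]
      · rw [Real.rpow_sub_one hb'.ne']; field_simp
    rcases le_total a b with h | h
    · have h3 : (a + b) ^ (p - 1) ≤ (2 * b) ^ (p - 1) :=
        Real.rpow_le_rpow (by linarith) (by linarith) hp1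
      rw [Real.mul_rpow (by norm_num) hb] at h3
      have h4 : (a + b) ^ (p - 1) * b ≤ 2 ^ (p - 1) * b ^ (p - 1) * b :=
        mul_le_mul_of_nonneg_right h3 hb
      rw [mul_assoc, hbp] at h4
      have h5 : 0 ≤ (2:ℝ) ^ (p - 1) * (a ^ (p - 1) * b) := by positivity
      rw [mul_add]
      linarith
    · have h3 : (a + b) ^ (p - 1) ≤ (2 * a) ^ (p - 1) :=
        Real.rpow_le_rpow (by linarith) (by linarith) hp1
      rw [Real.mul_rpow (by norm_num) ha] at h3
      have h4 : (a + b) ^ (p - 1) * b ≤ 2 ^ (p - 1) * a ^ (p - 1) * b :=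
        mul_le_mul_of_nonneg_right h3 hb
      have h5 : 0 ≤ (2:ℝ) ^ (p - 1) * b ^ p := by positivity
      rw [mul_add]
      linarith
  have h3 : p * ((a + b) ^ (p - 1) * b) ≤ p * (2 ^ (p - 1) * (a ^ (p - 1) * b + b ^ p)) :=
    mul_le_mul_of_nonneg_left h2 (by linarith)
  linarith

lemma n_one_sub_pow_le {r : ℝ} (hr0 : 0 ≤ r) (hr1 : r ≤ 1) (n : ℕ) :
    (n:ℝ) * r ^ (n - 1) * (1 - r) ≤ 1 := by
  have h1 : (n:ℝ) * r ^ (n - 1) ≤ ∑ k ∈ Finset.range n, r ^ k := by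
    have : ∑ k ∈ Finset.range n, r ^ (n - 1) ≤ ∑ k ∈ Finset.range n, r ^ k := by
      apply Finset.sum_le_sum
      intro k hk
      have hk' := Finset.mem_range.1 hk
      exact pow_le_pow_of_le_one hr0 hr1 (by omega)
    simpa using this
  have h2 : (∑ k ∈ Finset.range n, r ^ k) * (1 - r) = 1 - r ^ n := by
    have := geom_sum_mul r n
    linarith
  have h3 : (n:ℝ) * r ^ (n - 1) * (1 - r) ≤ (∑ k ∈ Finset.range n, r ^ k) * (1 - r) :=
    mul_le_mul_of_nonneg_right h1 (by linarith)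
  have h4 : 0 ≤ r ^ n := pow_nonneg hr0 n
  linarith

lemma pt_bound {p : ℝ} (hp : 1 < p) {r d f w M K B : ℝ} {n : ℕ} (hr0 : 0 ≤ r) (hr1 : r < 1)
    (hd : 0 ≤ d) (hf : 0 ≤ f) (hw : 0 ≤ w) (hM : 0 ≤ M) (hK : 0 ≤ K)
    (hfB : f + M ≤ B) (hwB : w ≤ B)
    (h : d ≤ f + M * r ^ n + K * (n * r ^ (n - 1) * w)) :
    (1 - r) ^ (p - 1) * d ^ p ≤ (1 - r) ^ (p - 1) * (f + M * r ^ n) ^ p +
      p * 2 ^ (p - 1) * (B ^ (p - 1) * K * B) * (n * r ^ (n - 1) * (1 - r) ^ (p - 1)) +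
      p * 2 ^ (p - 1) * K ^ p * (n * r ^ (n - 1) * w ^ p) := by
  have hp1 : 0 ≤ p - 1 := by linarith
  have hB : 0 ≤ B := hw.trans hwB
  have hrn : r ^ n ≤ 1 := pow_le_one₀ hr0 hr1.le
  have hrn0 : 0 ≤ r ^ n := pow_nonneg hr0 n
  set a := f + M * r ^ n with ha
  set X : ℝ := n * r ^ (n - 1) with hX
  have hX0 : 0 ≤ X := mul_nonneg (Nat.cast_nonneg _) (pow_nonneg hr0 _)
  have ha0 : 0 ≤ a := by positivity
  have haB : a ≤ B := by
    have : M * r ^ n ≤ M := mul_le_of_le_one_right hM hrn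
    linarith
  set b := K * (X * w) with hb
  have hb0 : 0 ≤ b := by positivity
  have ht : 0 ≤ 1 - r := by linarith
  have h1 : d ^ p ≤ (a + b) ^ p := Real.rpow_le_rpow hd h (by linarith)
  have h2 := h1.trans (add_rpow_le hp ha0 hb0)
  have h3 : (1 - r) ^ (p - 1) * d ^ p ≤
      (1 - r) ^ (p - 1) * (a ^ p + p * 2 ^ (p - 1) * (a ^ (p - 1) * b + b ^ p)) :=
    mul_le_mul_of_nonneg_left h2 (by positivity)
  refine h3.trans ?_
  -- the cross term
  have h4 : (1 - r) ^ (p - 1) * (a ^ (p - 1) * b) ≤ (B ^ (p - 1) * K * B) * (X * (1 - r) ^ (p - 1)) := by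
    have h5 : a ^ (p - 1) ≤ B ^ (p - 1) := Real.rpow_le_rpow ha0 haB hp1
    have h6 : a ^ (p - 1) * b ≤ B ^ (p - 1) * (K * (X * B)) := by
      apply mul_le_mul h5 _ hb0 (by positivity)
      apply mul_le_mul_of_nonneg_left _ hK
      exact mul_le_mul_of_nonneg_left hwB hX0
    calc (1 - r) ^ (p - 1) * (a ^ (p - 1) * b)
        ≤ (1 - r) ^ (p - 1) * (B ^ (p - 1) * (K * (X * B))) :=
          mul_le_mul_of_nonneg_left h6 (by positivity)
      _ = _ := by ring
  -- the main term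
  have h7 : (1 - r) ^ (p - 1) * b ^ p ≤ K ^ p * (X * w ^ p) := by
    have h8 : b ^ p = K ^ p * (X ^ p * w ^ p) := by
      rw [hb, Real.mul_rpow hK (by positivity), Real.mul_rpow hX0 hw]
    have h9 : (1 - r) ^ (p - 1) * X ^ p ≤ X := by
      rcases hX0.eq_or_lt with h0 | hpos
      · rw [← h0, Real.zero_rpow (by linarith), mul_zero]
      · have h10 : X ^ p = X ^ (p - 1) * X := by
          rw [Real.rpow_sub_one hpos.ne']; field_simp
        have h11 : (1 - r) ^ (p - 1) * X ^ (p - 1) = (X * (1 - r)) ^ (p - 1) := by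
          rw [Real.mul_rpow hX0 ht, mul_comm]
        have h12 : (X * (1 - r)) ^ (p - 1) ≤ 1 :=
          Real.rpow_le_one (by positivity) (n_one_sub_pow_le hr0 hr1.le n) hp1
        rw [h10, ← mul_assoc, h11]
        exact mul_le_of_le_one_left hX0 h12
    rw [h8]
    calc (1 - r) ^ (p - 1) * (K ^ p * (X ^ p * w ^ p))
        = K ^ p * (((1 - r) ^ (p - 1) * X ^ p) * w ^ p) := by ring
      _ ≤ K ^ p * (X * w ^ p) := by
          apply mul_le_mul_of_nonneg_left _ (by positivity)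
          exact mul_le_mul_of_nonneg_right h9 (by positivity)
  have hc : 0 ≤ p * 2 ^ (p - 1) := by positivity
  have h13 := mul_le_mul_of_nonneg_left h4 hc
  have h14 := mul_le_mul_of_nonneg_left h7 hc
  calc (1 - r) ^ (p - 1) * (a ^ p + p * 2 ^ (p - 1) * (a ^ (p - 1) * b + b ^ p))
      = (1 - r) ^ (p - 1) * a ^ p + p * 2 ^ (p - 1) * ((1 - r) ^ (p - 1) * (a ^ (p - 1) * b)) +
          p * 2 ^ (p - 1) * ((1 - r) ^ (p - 1) * b ^ p) := by ring
    _ ≤ (1 - r) ^ (p - 1) * a ^ p +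
          p * 2 ^ (p - 1) * ((B ^ (p - 1) * K * B) * (X * (1 - r) ^ (p - 1))) +
          p * 2 ^ (p - 1) * (K ^ p * (X * w ^ p)) := by linarith
    _ = _ := by ring

lemma wInt_nonneg (p : ℝ) (D : ℂ → ℂ) : 0 ≤ wInt p D := by
  unfold wInt
  apply setIntegral_nonneg measurableSet_ball
  intro z hz
  have : ‖z‖ < 1 := by simpa using hz
  have : 0 ≤ 1 - ‖z‖ := by linarith
  positivity

lemma cont_w {p : ℝ} (hp : 1 < p) {D : ℂ → ℂ} (hD : Continuous D) :
    Continuous (fun z : ℂ => (1 - ‖z‖) ^ (p - 1) * ‖D z‖ ^ p) := by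
  have hp1 : 0 ≤ p - 1 := by linarith
  have hp0 : 0 ≤ p := by linarith
  exact ((continuous_const.sub continuous_norm).rpow_const (fun _ => Or.inr hp1)).mul
    (hD.norm.rpow_const (fun _ => Or.inr hp0))

lemma tendsto_first {p : ℝ} (hp : 1 < p) {F : ℂ → ℂ} (hF : Continuous F) {M : ℝ} (hM : 0 ≤ M) :
    Tendsto (fun n : ℕ => ∫ z in ball (0:ℂ) 1, (1 - ‖z‖) ^ (p - 1) * (‖F z‖ + M * ‖z‖ ^ n) ^ p)
      atTop (𝓝 (wInt p F)) := by
  have hp1 : 0 ≤ p - 1 := by linarith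
  have hp0 : 0 ≤ p := by linarith
  unfold wInt
  have hcF : ∀ n : ℕ, Continuous (fun z : ℂ => (1 - ‖z‖) ^ (p - 1) * (‖F z‖ + M * ‖z‖ ^ n) ^ p) := by
    intro n
    exact ((continuous_const.sub continuous_norm).rpow_const (fun _ => Or.inr hp1)).mul
      ((hF.norm.add (continuous_const.mul (continuous_norm.pow n))).rpow_const
        (fun _ => Or.inr hp0))
  have hcB : Continuous (fun z : ℂ => (‖F z‖ + M) ^ p) :=
    (hF.norm.add continuous_const).rpow_const (fun _ => Or.inr hp0)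
  apply tendsto_integral_of_dominated_convergence (fun z => (‖F z‖ + M) ^ p)
  · intro n
    exact (hcF n).aestronglyMeasurable
  · exact int_ball hcB
  · intro n
    rw [ae_restrict_iff' measurableSet_ball]
    refine Eventually.of_forall ?_
    intro z hz
    have hz1 : ‖z‖ < 1 := by simpa using hz
    have h1 : ‖z‖ ^ n ≤ 1 := pow_le_one₀ (norm_nonneg _) hz1.le
    have h2 : 0 ≤ ‖z‖ ^ n := by positivity
    have h3 : 0 ≤ 1 - ‖z‖ := by linarith
    have h4 : (1 - ‖z‖) ^ (p - 1) ≤ 1 :=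
      Real.rpow_le_one h3 (by linarith [norm_nonneg z]) hp1
    have h5 : (‖F z‖ + M * ‖z‖ ^ n) ^ p ≤ (‖F z‖ + M) ^ p := by
      apply Real.rpow_le_rpow (by positivity) _ hp0
      have : M * ‖z‖ ^ n ≤ M := mul_le_of_le_one_right hM h1
      linarith
    rw [Real.norm_of_nonneg (by positivity)]
    calc (1 - ‖z‖) ^ (p - 1) * (‖F z‖ + M * ‖z‖ ^ n) ^ p ≤ 1 * (‖F z‖ + M * ‖z‖ ^ n) ^ p :=
          mul_le_mul_of_nonneg_right h4 (by positivity)
      _ ≤ (‖F z‖ + M) ^ p := by rw [one_mul]; exact h5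
  · rw [ae_restrict_iff' measurableSet_ball]
    refine Eventually.of_forall ?_
    intro z hz
    have hz1 : ‖z‖ < 1 := by simpa using hz
    have h1 : Tendsto (fun n : ℕ => ‖z‖ ^ n) atTop (𝓝 0) :=
      tendsto_pow_atTop_nhds_zero_of_lt_one (norm_nonneg _) hz1
    have h2 : Tendsto (fun n : ℕ => ‖F z‖ + M * ‖z‖ ^ n) atTop (𝓝 (‖F z‖ + M * 0)) :=
      tendsto_const_nhds.add (h1.const_mul M)
    rw [mul_zero, add_zero] at h2
    exact (h2.rpow_const (Or.inr hp0)).const_mul _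

lemma keyK {p : ℝ} (hp : 1 < p) {F W : ℂ → ℂ} (hF : Continuous F) (hW : Continuous W)
    {M K : ℝ} (hM : 0 ≤ M) (hK : 0 ≤ K) {ε : ℝ} (hε : 0 < ε) :
    ∀ᶠ n : ℕ in atTop, ∀ D : ℂ → ℂ, Continuous D →
      (∀ z, ‖z‖ < 1 → ‖D z‖ ≤ ‖F z‖ + M * ‖z‖ ^ n + K * (n * ‖z‖ ^ (n - 1) * ‖W z‖)) →
      wInt p D ≤ wInt p F + p * 2 ^ (p - 1) * K ^ p * (∫ θ in (-π)..π, ‖W (cis θ)‖ ^ p) + ε := by
  have hp1 : 0 < p - 1 := by linarith
  have hp0 : 0 < p := by linarith
  -- bound B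
  obtain ⟨B1, hB1⟩ := (isCompact_closedBall (0:ℂ) 1).exists_bound_of_continuousOn hF.continuousOn
  obtain ⟨B2, hB2⟩ := (isCompact_closedBall (0:ℂ) 1).exists_bound_of_continuousOn hW.continuousOn
  set B := max (B1 + M) B2 with hBdef
  have hB0 : 0 ≤ B := ((norm_nonneg _).trans (hB2 0 (by simp))).trans (le_max_right _ _)
  set c1 := p * 2 ^ (p - 1) * (B ^ (p - 1) * K * B) with hc1
  set c2 := p * 2 ^ (p - 1) * K ^ p with hc2
  have hc10 : 0 ≤ c1 := by positivity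
  have hc20 : 0 ≤ c2 := by positivity
  have e1 := (tendsto_first hp hF hM).eventually (gt_mem_nhds (show wInt p F < wInt p F + ε / 3 by linarith))
  have hG1c : Continuous (fun z : ℂ => (1 - ‖z‖) ^ (p - 1)) :=
    (continuous_const.sub continuous_norm).rpow_const (fun _ => Or.inr hp1.le)
  have hG2c : Continuous (fun z : ℂ => ‖W z‖ ^ p) :=
    hW.norm.rpow_const (fun _ => Or.inr hp0.le)
  have e2 := approx_id (fun z : ℂ => (1 - ‖z‖) ^ (p - 1)) hG1c
    (fun θ => by simp [norm_cis, Real.zero_rpow hp1.ne']) (ε := ε / (3 * (c1 + 1))) (by positivity)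
  have e3 := approx_id (fun z : ℂ => ‖W z‖ ^ p) hG2c (fun θ => by positivity)
    (ε := ε / (3 * (c2 + 1))) (by positivity)
  filter_upwards [e1, e2, e3] with n h1 h2 h3
  intro D hD hDle
  have hi0 : IntegrableOn (fun z : ℂ => (1 - ‖z‖) ^ (p - 1) * ‖D z‖ ^ p) (ball (0:ℂ) 1) volume :=
    int_ball (cont_w hp hD)
  have hi1 : IntegrableOn (fun z : ℂ => (1 - ‖z‖) ^ (p - 1) * (‖F z‖ + M * ‖z‖ ^ n) ^ p)
      (ball (0:ℂ) 1) volume :=
    int_ball (((continuous_const.sub continuous_norm).rpow_const (fun _ => Or.inr hp1.le)).mul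
      ((hF.norm.add (continuous_const.mul (continuous_norm.pow n))).rpow_const
        (fun _ => Or.inr hp0.le)))
  have hi2 : IntegrableOn (fun z : ℂ => (n:ℝ) * ‖z‖ ^ (n - 1) * (1 - ‖z‖) ^ (p - 1))
      (ball (0:ℂ) 1) volume :=
    int_ball ((continuous_const.mul (continuous_norm.pow _)).mul hG1c)
  have hi3 : IntegrableOn (fun z : ℂ => (n:ℝ) * ‖z‖ ^ (n - 1) * ‖W z‖ ^ p)
      (ball (0:ℂ) 1) volume :=
    int_ball ((continuous_const.mul (continuous_norm.pow _)).mul hG2c)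
  have hmono : wInt p D ≤ ∫ z in ball (0:ℂ) 1,
      ((1 - ‖z‖) ^ (p - 1) * (‖F z‖ + M * ‖z‖ ^ n) ^ p +
        c1 * ((n:ℝ) * ‖z‖ ^ (n - 1) * (1 - ‖z‖) ^ (p - 1)) +
        c2 * ((n:ℝ) * ‖z‖ ^ (n - 1) * ‖W z‖ ^ p)) := by
    unfold wInt
    apply setIntegral_mono_on hi0 _ measurableSet_ball
    · intro z hz
      have hz1 : ‖z‖ < 1 := by simpa using hz
      have hz2 : z ∈ closedBall (0:ℂ) 1 := by simpa using hz1.le
      exact pt_bound hp (norm_nonneg z) hz1 (norm_nonneg _) (norm_nonneg _) (norm_nonneg _) hM hK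
        ((by linarith [hB1 z hz2] : ‖F z‖ + M ≤ B1 + M).trans (le_max_left _ _))
        ((hB2 z hz2).trans (le_max_right _ _)) (hDle z hz1)
    · exact (hi1.add (hi2.const_mul c1)).add (hi3.const_mul c2)
  have hsplit : ∫ z in ball (0:ℂ) 1,
      ((1 - ‖z‖) ^ (p - 1) * (‖F z‖ + M * ‖z‖ ^ n) ^ p +
        c1 * ((n:ℝ) * ‖z‖ ^ (n - 1) * (1 - ‖z‖) ^ (p - 1)) +
        c2 * ((n:ℝ) * ‖z‖ ^ (n - 1) * ‖W z‖ ^ p)) =
      (∫ z in ball (0:ℂ) 1, (1 - ‖z‖) ^ (p - 1) * (‖F z‖ + M * ‖z‖ ^ n) ^ p) +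
      c1 * (∫ z in ball (0:ℂ) 1, (n:ℝ) * ‖z‖ ^ (n - 1) * (1 - ‖z‖) ^ (p - 1)) +
      c2 * (∫ z in ball (0:ℂ) 1, (n:ℝ) * ‖z‖ ^ (n - 1) * ‖W z‖ ^ p) := by
    have hi12 : IntegrableOn (fun z : ℂ => (1 - ‖z‖) ^ (p - 1) * (‖F z‖ + M * ‖z‖ ^ n) ^ p +
        c1 * ((n:ℝ) * ‖z‖ ^ (n - 1) * (1 - ‖z‖) ^ (p - 1))) (ball (0:ℂ) 1) volume :=
      hi1.add (hi2.const_mul c1)
    rw [integral_add hi12 (hi3.const_mul c2), integral_add hi1 (hi2.const_mul c1),
      integral_const_mul, integral_const_mul]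
  rw [hsplit] at hmono
  have h2' : ∫ z in ball (0:ℂ) 1, (n:ℝ) * ‖z‖ ^ (n - 1) * (1 - ‖z‖) ^ (p - 1) ≤
      ε / (3 * (c1 + 1)) := by
    have hz : ∫ θ in (-π)..π, (1 - ‖cis θ‖) ^ (p - 1) = 0 := by
      have : ∀ θ, (1 - ‖cis θ‖) ^ (p - 1) = 0 := fun θ => by
        simp [norm_cis, Real.zero_rpow hp1.ne']
      simp only [this]
      exact intervalIntegral.integral_zero
    rw [hz, zero_add] at h2
    exact h2
  have h4 : c1 * (ε / (3 * (c1 + 1))) ≤ ε / 3 := by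
    rw [mul_div_assoc', div_le_div_iff₀ (by positivity) (by norm_num)]
    nlinarith
  have h5 : c2 * (ε / (3 * (c2 + 1))) ≤ ε / 3 := by
    rw [mul_div_assoc', div_le_div_iff₀ (by positivity) (by norm_num)]
    nlinarith
  have h6 := mul_le_mul_of_nonneg_left h2' hc10
  have h7 := mul_le_mul_of_nonneg_left h3 hc20
  rw [mul_add] at h7
  linarith

end Pool.Agent.H57.Cyc
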