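import Mathlib
import Pool.Agent.H57.Cyc.Circle

set_option autoImplicit false

namespace Pool.Agent.H57.Cyc

open Filter Topology MeasureTheory Real Metric Set

/-- The size profile of the added term. -/
noncomputable def sig (u : ℝ) : ℝ := (1 / 2) * (u / (1 + u)) * Real.exp (-u)

lemma sig_pos {u : ℝ} (hu : 0 < u) : 0 < sig u := by
  unfold sig; positivity

lemma sig_le_half {u : ℝ} (hu : 0 < u) : sig u ≤ u / 2 := by
  unfold sig
  have h1 : u / (1 + u) ≤ u := by
    rw [div_le_iff₀ (by positivity)]; nlinarith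
  have h2 : Real.exp (-u) ≤ 1 := Real.exp_le_one_iff.2 (by linarith)
  have h3 : 0 ≤ u / (1 + u) := by positivity
  have h4 : 0 < Real.exp (-u) := Real.exp_pos _
  calc (1 / 2) * (u / (1 + u)) * Real.exp (-u) ≤ (1 / 2) * (u / (1 + u)) * 1 :=
        mul_le_mul_of_nonneg_left h2 (by positivity)
    _ ≤ u / 2 := by linarith

lemma sig_le_exp {u : ℝ} (hu : 0 < u) : sig u ≤ Real.exp (-u) := by
  unfold sig
  have h1 : u / (1 + u) ≤ 1 := by
    rw [div_le_one (by positivity)]; linarith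
  have h4 : 0 < Real.exp (-u) := Real.exp_pos _
  have h3 : 0 ≤ u / (1 + u) := by positivity
  nlinarith

lemma sig_le_one {u : ℝ} (hu : 0 < u) : sig u ≤ 1 :=
  (sig_le_exp hu).trans (Real.exp_le_one_iff.2 (by linarith))

lemma exp_bound {a u : ℝ} (ha : 0 < a) (hu : 0 ≤ u) :
    (1 + u ^ 2) * Real.exp (-(a * u)) ≤ 1 + 2 / a ^ 2 := by
  have h1 := Real.quadratic_le_exp_of_nonneg (x := a * u) (by positivity)
  have hau : 0 ≤ a * u := by positivity
  rw [Real.exp_neg, ← div_eq_mul_inv, div_le_iff₀ (Real.exp_pos _)]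
  have h2 : 1 + u ^ 2 ≤ (1 + 2 / a ^ 2) * (1 + a * u + (a * u) ^ 2 / 2) := by
    have e : (1 + 2 / a ^ 2) * (1 + a * u + (a * u) ^ 2 / 2) =
        1 + a * u + (a * u) ^ 2 / 2 + 2 / a ^ 2 + 2 / a ^ 2 * (a * u) + u ^ 2 := by
      field_simp
      ring
    rw [e]
    have : 0 ≤ a * u + (a * u) ^ 2 / 2 + 2 / a ^ 2 + 2 / a ^ 2 * (a * u) := by positivity
    linarith
  exact h2.trans (mul_le_mul_of_nonneg_left h1 (by positivity))

lemma sqrt_le_half_one_add {u : ℝ} (hu : 0 ≤ u) : √u ≤ (1 + u) / 2 := by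
  have h1 : √u * √u = u := Real.mul_self_sqrt hu
  nlinarith [sq_nonneg (√u - 1)]

lemma pw1 {p : ℝ} (hp : 2 < p) {u ρ : ℝ} (hu : 0 < u) (hρ0 : 0 ≤ ρ) (hρ : ρ ≤ sig u) :
    ρ ^ p ≤ (1 + 2 / (p - 2) ^ 2) * (ρ ^ 2 / (u * √u)) := by
  have hsu : 0 < √u := Real.sqrt_pos.2 hu
  rcases hρ0.eq_or_lt with rfl | hρpos
  · rw [Real.zero_rpow (by linarith)]
    positivity
  have h1 : ρ ^ p = ρ ^ 2 * ρ ^ (p - 2) := by
    rw [← Real.rpow_natCast ρ 2, ← Real.rpow_add hρpos]
    congr 1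
    push_cast
    ring
  have h2 : ρ ^ (p - 2) ≤ Real.exp (-((p - 2) * u)) := by
    calc ρ ^ (p - 2) ≤ (Real.exp (-u)) ^ (p - 2) :=
          Real.rpow_le_rpow hρ0 (hρ.trans (sig_le_exp hu)) (by linarith)
      _ = Real.exp (-((p - 2) * u)) := by
          rw [← Real.exp_mul]; congr 1; ring
  have h3 : u * √u ≤ 1 + u ^ 2 := by
    have := sqrt_le_half_one_add hu.le
    nlinarith [sq_nonneg (u - 1)]
  have h4 := exp_bound (a := p - 2) (by linarith) hu.le
  have h5 : ρ ^ (p - 2) * (u * √u) ≤ 1 + 2 / (p - 2) ^ 2 := by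
    calc ρ ^ (p - 2) * (u * √u) ≤ Real.exp (-((p - 2) * u)) * (1 + u ^ 2) :=
          mul_le_mul h2 h3 (by positivity) (Real.exp_pos _).le
      _ = (1 + u ^ 2) * Real.exp (-((p - 2) * u)) := by ring
      _ ≤ _ := h4
  rw [h1, mul_div_assoc', le_div_iff₀ (by positivity)]
  calc ρ ^ 2 * ρ ^ (p - 2) * (u * √u) = ρ ^ 2 * (ρ ^ (p - 2) * (u * √u)) := by ring
    _ ≤ ρ ^ 2 * (1 + 2 / (p - 2) ^ 2) := mul_le_mul_of_nonneg_left h5 (by positivity)
    _ = _ := by ring

lemma pw2 {q : ℝ} (hq1 : 1 < q) (hq2 : q < 2) {u ρ : ℝ} (hu : 0 < u) (hρ : sig u / 2 ≤ ρ) :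
    (Real.exp (-u) * ρ) ^ q ≤ 4 * (1 + 2 / (2 * (q - 1)) ^ 2) * (ρ ^ 2 / (u * √u)) := by
  have hsu : 0 < √u := Real.sqrt_pos.2 hu
  have hs := sig_pos hu
  have hρpos : 0 < ρ := by linarith
  have h1 : ρ ^ q = ρ ^ 2 * ρ ^ (q - 2) := by
    rw [← Real.rpow_natCast ρ 2, ← Real.rpow_add hρpos]
    congr 1
    push_cast
    ring
  have ht : 0 < u / (1 + u) / 4 := by positivity
  have ht1 : u / (1 + u) / 4 ≤ 1 := by
    have : u / (1 + u) ≤ 1 := by rw [div_le_one (by positivity)]; linarith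
    linarith
  have hsig : sig u / 2 = (u / (1 + u) / 4) * Real.exp (-u) := by unfold sig; ring
  have h2 : ρ ^ (q - 2) ≤ (4 * ((1 + u) / u)) * Real.exp ((2 - q) * u) := by
    calc ρ ^ (q - 2) ≤ (sig u / 2) ^ (q - 2) :=
          Real.rpow_le_rpow_of_nonpos (by positivity) hρ (by linarith)
      _ = (u / (1 + u) / 4) ^ (q - 2) * (Real.exp (-u)) ^ (q - 2) := by
          rw [hsig, Real.mul_rpow ht.le (Real.exp_pos _).le]
      _ ≤ (u / (1 + u) / 4) ^ (-1 : ℝ) * (Real.exp (-u)) ^ (q - 2) := by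
          apply mul_le_mul_of_nonneg_right _ (by positivity)
          exact Real.rpow_le_rpow_of_exponent_ge ht ht1 (by linarith)
      _ = (4 * ((1 + u) / u)) * Real.exp ((2 - q) * u) := by
          rw [Real.rpow_neg_one, ← Real.exp_mul]
          congr 1
          · field_simp
          · congr 1; ring
  have h3 : Real.exp (-u) ^ q = Real.exp (-(q * u)) := by
    rw [← Real.exp_mul]; congr 1; ring
  have h4 := exp_bound (a := 2 * (q - 1)) (by linarith) hu.le
  have h6 : (1 + u) * √u ≤ 1 + u ^ 2 := by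
    have := sqrt_le_half_one_add hu.le
    nlinarith [sq_nonneg (u - 1)]
  have h5 : Real.exp (-(q * u)) * ρ ^ (q - 2) * (u * √u) ≤
      4 * (1 + 2 / (2 * (q - 1)) ^ 2) := by
    have he : Real.exp (-(q * u)) * Real.exp ((2 - q) * u) = Real.exp (-(2 * (q - 1) * u)) := by
      rw [← Real.exp_add]; congr 1; ring
    calc Real.exp (-(q * u)) * ρ ^ (q - 2) * (u * √u)
        ≤ Real.exp (-(q * u)) * ((4 * ((1 + u) / u)) * Real.exp ((2 - q) * u)) * (u * √u) := by
          apply mul_le_mul_of_nonneg_right _ (by positivity)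
          exact mul_le_mul_of_nonneg_left h2 (Real.exp_pos _).le
      _ = 4 * (((1 + u) * √u) * (Real.exp (-(q * u)) * Real.exp ((2 - q) * u))) := by
          field_simp
      _ = 4 * (((1 + u) * √u) * Real.exp (-(2 * (q - 1) * u))) := by rw [he]
      _ ≤ 4 * ((1 + u ^ 2) * Real.exp (-(2 * (q - 1) * u))) := by
          apply mul_le_mul_of_nonneg_left _ (by norm_num)
          exact mul_le_mul_of_nonneg_right h6 (Real.exp_pos _).le
      _ ≤ _ := mul_le_mul_of_nonneg_left h4 (by norm_num)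
  rw [Real.mul_rpow (Real.exp_pos _).le hρpos.le, h3, h1, mul_div_assoc',
    le_div_iff₀ (by positivity)]
  calc Real.exp (-(q * u)) * (ρ ^ 2 * ρ ^ (q - 2)) * (u * √u)
      = ρ ^ 2 * (Real.exp (-(q * u)) * ρ ^ (q - 2) * (u * √u)) := by ring
    _ ≤ ρ ^ 2 * (4 * (1 + 2 / (2 * (q - 1)) ^ 2)) := mul_le_mul_of_nonneg_left h5 (by positivity)
    _ = _ := by ring

lemma pw3 {K u : ℝ} (hK : 0 < K) (hu : 0 < u) :
    1 - (Real.exp (-u)) ^ 2 ≤ u / K +
      (8 * (Real.exp (2 * K) * (1 + K) ^ 2)) * (sig u ^ 2 / (u * √u)) := by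
  have hsu : 0 < √u := Real.sqrt_pos.2 hu
  have hs := sig_pos hu
  rcases le_total K u with h | h
  · have h1 : 1 ≤ u / K := by rw [le_div_iff₀ hK]; linarith
    have h2 : 0 < (Real.exp (-u)) ^ 2 := by positivity
    have h3 : 0 ≤ (8 * (Real.exp (2 * K) * (1 + K) ^ 2)) * (sig u ^ 2 / (u * √u)) := by positivity
    linarith
  · have h0 : 0 ≤ u / K := by positivity
    have h1 : (Real.exp (-u)) ^ 2 = Real.exp (-(2 * u)) := by
      rw [← Real.exp_nat_mul]; congr 1; push_cast; ring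
    have h2 : 1 - (Real.exp (-u)) ^ 2 ≤ 2 * √u := by
      rcases le_total u 1 with h3 | h3
      · have h4 : 1 - 2 * u ≤ Real.exp (-(2 * u)) := by
          have := Real.add_one_le_exp (-(2 * u)); linarith
        have h5 : u ≤ √u := by
          have := Real.mul_self_sqrt hu.le
          have h6 : √u ≤ 1 := Real.sqrt_le_one.2 h3
          nlinarith
        rw [h1]; linarith
      · have h5 : 1 ≤ √u := Real.one_le_sqrt.2 h3
        have h6 : 0 < (Real.exp (-u)) ^ 2 := by positivity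
        linarith
    have h3 : sig u ^ 2 / (u * √u) = (1 / 4) * (√u / (1 + u) ^ 2) * Real.exp (-(2 * u)) := by
      have e1 : sig u ^ 2 = (1 / 4) * (u ^ 2 / (1 + u) ^ 2) * (Real.exp (-u)) ^ 2 := by
        unfold sig
        rw [mul_pow, mul_pow, div_pow u]
        norm_num
      rw [e1, h1]
      have e2 : u ^ 2 = u * √u * √u := by
        rw [mul_assoc, Real.mul_self_sqrt hu.le]; ring
      rw [e2]
      field_simp
    have h4 : 2 * √u ≤ (8 * (Real.exp (2 * K) * (1 + K) ^ 2)) * (sig u ^ 2 / (u * √u)) := by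
      rw [h3]
      have h5 : 1 ≤ Real.exp (2 * K) * Real.exp (-(2 * u)) := by
        rw [← Real.exp_add]
        exact Real.one_le_exp (by linarith)
      have h6 : 1 ≤ (1 + K) ^ 2 / (1 + u) ^ 2 := by
        rw [le_div_iff₀ (by positivity)]
        nlinarith
      have h7 : 1 ≤ (Real.exp (2 * K) * Real.exp (-(2 * u))) * ((1 + K) ^ 2 / (1 + u) ^ 2) := by
        have := mul_le_mul h5 h6 (by norm_num) (by positivity)
        linarith
      calc 2 * √u = 2 * √u * 1 := by ring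
        _ ≤ 2 * √u * ((Real.exp (2 * K) * Real.exp (-(2 * u))) * ((1 + K) ^ 2 / (1 + u) ^ 2)) :=
            mul_le_mul_of_nonneg_left h7 (by positivity)
        _ = _ := by ring
    linarith

end Pool.Agent.H57.Cyc
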