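import Mathlib
import Pool.Agent.H57.Cyc.LemK
import Pool.Agent.H57.Cyc.Approx
import Pool.Agent.H57.Cyc.Pointwise

set_option autoImplicit false

namespace Pool.Agent.H57.Cyc

open Filter Topology MeasureTheory Real Metric Set

/-- The approximants of the construction. -/
structure IsState (H : ℂ → ℂ) : Prop where
  diff : Differentiable ℂ H
  zero : H 0 = 1
  pos : ∀ θ, 0 < (H (cis θ)).re

noncomputable def AA (H : ℂ → ℂ) : ℝ := ∫ θ in (-π)..π, √((H (cis θ)).re)

noncomputable def BB (H : ℂ → ℂ) : ℝ :=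
  ∫ θ in (-π)..π, sig ((H (cis θ)).re) ^ 2 / ((H (cis θ)).re * √((H (cis θ)).re))

noncomputable def SS (H : ℂ → ℂ) : ℂ → ℂ := fun z => Complex.exp (-(H z))

lemma norm_SS (H : ℂ → ℂ) (z : ℂ) : ‖SS H z‖ = Real.exp (-(H z).re) := by
  unfold SS
  rw [Complex.norm_exp, Complex.neg_re]

lemma SS_diff {H : ℂ → ℂ} (hH : Differentiable ℂ H) : Differentiable ℂ (SS H) := by
  unfold SS
  exact hH.neg.cexp

lemma deriv_SS {H : ℂ → ℂ} {z : ℂ} (hH : DifferentiableAt ℂ H z) :
    deriv (SS H) z = - deriv H z * SS H z := by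
  have h : deriv (SS H) z = Complex.exp (-(H z)) * -deriv H z := (hH.hasDerivAt.neg.cexp).deriv
  rw [h]
  unfold SS
  ring

lemma SS_le_one {H : ℂ → ℂ} (hH : IsState H) {z : ℂ} (hz : ‖z‖ ≤ 1) : ‖SS H z‖ ≤ 1 := by
  apply max_mod (SS_diff hH.diff) _ hz
  intro θ
  rw [norm_SS]
  exact Real.exp_le_one_iff.2 (by linarith [hH.pos θ])

lemma cont_deriv {H : ℂ → ℂ} (hH : Differentiable ℂ H) : Continuous (deriv H) :=
  hH.deriv.continuous

lemma cont_re {H : ℂ → ℂ} (hH : Continuous H) : Continuous (fun θ => (H (cis θ)).re) :=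
  Complex.continuous_re.comp (hH.comp continuous_cis)

lemma sig_cont {f : ℝ → ℝ} (hf : Continuous f) (h0 : ∀ θ, 0 ≤ f θ) :
    Continuous (fun θ => sig (f θ)) := by
  unfold sig
  apply Continuous.mul (Continuous.mul continuous_const (hf.div (continuous_const.add hf) _))
  · exact (hf.neg).rexp
  · intro θ
    have : 0 < 1 + f θ := by linarith [h0 θ]
    exact this.ne'

lemma step {p q : ℝ} (hp : 2 < p) (hq1 : 1 < q) (hq2 : q < 2) :
    ∃ C : ℝ, 0 ≤ C ∧ ∀ H : ℂ → ℂ, IsState H → ∀ ε > 0, ∀ r : ℝ, 0 ≤ r → r < 1 →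
      ∃ H' : ℂ → ℂ, IsState H' ∧ (∀ z, ‖z‖ ≤ r → ‖H' z - H z‖ ≤ ε) ∧
        AA H' ≤ AA H - (1 / 64) * BB H + ε ∧
        wInt p (deriv H') + C * AA H' ≤ wInt p (deriv H) + C * AA H + ε ∧
        wInt q (deriv (SS H')) + C * AA H' ≤ wInt q (deriv (SS H)) + C * AA H + ε := by
  have hp1 : 1 < p := by linarith
  set C1 : ℝ := 1 + 2 / (p - 2) ^ 2 with hC1
  set C2 : ℝ := 4 * (1 + 2 / (2 * (q - 1)) ^ 2) with hC2
  have hC10 : 0 ≤ C1 := by positivity
  have hC20 : 0 ≤ C2 := by positivity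
  set cp : ℝ := p * 2 ^ (p - 1) * 1 ^ p * C1 with hcp
  set cq : ℝ := q * 2 ^ (q - 1) * 3 ^ q * C2 with hcq
  have hcp0 : 0 ≤ cp := by positivity
  have hcq0 : 0 ≤ cq := by positivity
  refine ⟨16 * (cp + cq), by positivity, ?_⟩
  intro H hH ε hε r hr0 hr1
  set C : ℝ := 16 * (cp + cq) with hC
  have hC0 : 0 ≤ C := by positivity
  set ε₁ : ℝ := ε / (1 + C) with hε₁
  have hε₁0 : 0 < ε₁ := by positivity
  have hε₁' : (1 + C) * ε₁ = ε := by rw [hε₁]; field_simp
  have hε₁le : ε₁ ≤ ε := by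
    have : 0 ≤ C * ε₁ := by positivity
    linarith
  have hHc : Continuous H := hH.diff.continuous
  -- choose R
  obtain ⟨Q, hQ⟩ := exists_R (fun z => sig |(H z).re|) (by
      unfold sig
      have hc : Continuous (fun z => |(H z).re|) := (Complex.continuous_re.comp hHc).abs
      apply Continuous.mul (Continuous.mul continuous_const (hc.div (continuous_const.add hc) _))
      · exact hc.neg.rexp
      · intro z
        have : 0 < 1 + |(H z).re| := by positivity
        exact this.ne') (fun θ => by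
      have := hH.pos θ
      exact sig_pos (by simpa using this.ne'))
  set R : ℂ → ℂ := fun z => Q.eval z with hRdef
  have hRd : Differentiable ℂ R := Q.differentiable
  have hRc : Continuous R := hRd.continuous
  have hRlo : ∀ θ, sig ((H (cis θ)).re) / 2 ≤ ‖R (cis θ)‖ := by
    intro θ
    have := (hQ θ).1
    rwa [abs_of_pos (hH.pos θ)] at this
  have hRhi : ∀ θ, ‖R (cis θ)‖ ≤ sig ((H (cis θ)).re) := by
    intro θ
    have := (hQ θ).2
    rwa [abs_of_pos (hH.pos θ)] at this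
  have hR1 : ∀ z, ‖z‖ ≤ 1 → ‖R z‖ ≤ 1 := by
    intro z hz
    exact max_mod hRd (fun θ => (hRhi θ).trans (sig_le_one (hH.pos θ))) hz
  obtain ⟨MR, hMR⟩ := (isCompact_closedBall (0:ℂ) 1).exists_bound_of_continuousOn
    (cont_deriv hRd).continuousOn
  have hSd : Differentiable ℂ (SS H) := SS_diff hH.diff
  obtain ⟨M1, hM1⟩ := (isCompact_closedBall (0:ℂ) 1).exists_bound_of_continuousOn
    (cont_deriv hSd).continuousOn
  have hMR0 : 0 ≤ MR := (norm_nonneg _).trans (hMR 0 (by simp))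
  have hM10 : 0 ≤ M1 := (norm_nonneg _).trans (hM1 0 (by simp))
  set W : ℂ → ℂ := fun z => SS H z * R z with hWdef
  have hWc : Continuous W := hSd.continuous.mul hRc
  -- eventual statements
  have e1 := lyap H R hHc hRc hH.pos
    (fun θ => (hRhi θ).trans ((sig_le_half (hH.pos θ)).trans (by linarith [hH.pos θ]))) ε₁ hε₁0
  have e2 := keyK hp1 (cont_deriv hH.diff) hRc hMR0 (zero_le_one) hε₁0
  have e3 := keyK hq1 (cont_deriv hSd) hWc (M := 2 * M1 + 3 * MR) (K := 3) (by positivity)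
    (by norm_num) hε₁0
  have e4 : ∀ᶠ n : ℕ in atTop, r ^ n < ε :=
    (tendsto_pow_atTop_nhds_zero_of_lt_one hr0 hr1).eventually (gt_mem_nhds hε)
  obtain ⟨n, h1, h2, h3, h4, hn0⟩ :=
    (e1.and (e2.and (e3.and (e4.and (eventually_gt_atTop 0))))).exists
  set H' : ℂ → ℂ := fun z => H z + z ^ n * R z with hH'
  have hH'd : Differentiable ℂ H' := hH.diff.add ((differentiable_id.pow n).mul hRd)
  have hH'S : IsState H' := by
    refine ⟨hH'd, ?_, ?_⟩
    · simp only [hH', zero_pow hn0.ne', zero_mul, add_zero, hH.zero]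
    · intro θ
      have hp := hH.pos θ
      have h5 : -‖cis θ ^ n * R (cis θ)‖ ≤ (cis θ ^ n * R (cis θ)).re :=
        (abs_le.1 (Complex.abs_re_le_norm _)).1
      rw [norm_mul, norm_pow, norm_cis, one_pow, one_mul] at h5
      have h6 := (hRhi θ).trans (sig_le_half hp)
      simp only [hH', Complex.add_re]
      linarith
  have hderH' : ∀ z, deriv H' z = deriv H z + (n * z ^ (n - 1) * R z + z ^ n * deriv R z) := by
    intro z
    have := ((hH.diff z).hasDerivAt.add (((hasDerivAt_pow n z)).mul (hRd z).hasDerivAt)).deriv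
    exact this
  -- derivative bound for H'
  have hD1 : ∀ z, ‖z‖ < 1 → ‖deriv H' z‖ ≤ ‖deriv H z‖ + MR * ‖z‖ ^ n +
      1 * (n * ‖z‖ ^ (n - 1) * ‖R z‖) := by
    intro z hz
    rw [hderH' z]
    have h5 : ‖z ^ n * deriv R z‖ ≤ MR * ‖z‖ ^ n := by
      rw [norm_mul, norm_pow, mul_comm]
      exact mul_le_mul_of_nonneg_right (hMR z (by simpa using hz.le)) (by positivity)
    have h6 : ‖(n:ℂ) * z ^ (n - 1) * R z‖ = n * ‖z‖ ^ (n - 1) * ‖R z‖ := by
      rw [norm_mul, norm_mul, norm_pow, Complex.norm_natCast]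
    calc _ ≤ ‖deriv H z‖ + (‖(n:ℂ) * z ^ (n - 1) * R z‖ + ‖z ^ n * deriv R z‖) :=
          (norm_add_le _ _).trans (add_le_add_right (norm_add_le _ _) _)
      _ ≤ _ := by rw [h6]; linarith
  -- derivative bound for SS H'
  have hD2 : ∀ z, ‖z‖ < 1 → ‖deriv (SS H') z‖ ≤ ‖deriv (SS H) z‖ + (2 * M1 + 3 * MR) * ‖z‖ ^ n +
      3 * (n * ‖z‖ ^ (n - 1) * ‖W z‖) := by
    intro z hz
    set x : ℂ := z ^ n * R z with hx
    have hxn : ‖x‖ ≤ ‖z‖ ^ n := by
      rw [hx, norm_mul, norm_pow]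
      exact mul_le_of_le_one_right (by positivity) (hR1 z hz.le)
    have hzn : ‖z‖ ^ n ≤ 1 := pow_le_one₀ (norm_nonneg _) hz.le
    set E : ℂ := Complex.exp (-x) with hE
    have hE1 : ‖E - 1‖ ≤ 2 * ‖z‖ ^ n := by
      have := Complex.norm_exp_sub_one_le (x := -x) (by rw [norm_neg]; linarith)
      rw [norm_neg] at this
      linarith
    have hE3 : ‖E‖ ≤ 3 := by
      have : ‖E‖ ≤ ‖E - 1‖ + ‖(1:ℂ)‖ := by
        have := norm_add_le (E - 1) 1
        rwa [sub_add_cancel] at this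
      rw [norm_one] at this
      linarith
    have hSH' : SS H' z = SS H z * E := by
      simp only [SS, hH', hE, hx]
      rw [← Complex.exp_add]
      congr 1
      ring
    have hder : deriv (SS H') z = deriv (SS H) z + deriv (SS H) z * (E - 1) -
        (n * z ^ (n - 1) * (SS H z * R z)) * E - (z ^ n * deriv R z) * (SS H z * E) := by
      rw [deriv_SS (hH'd z), deriv_SS (hH.diff z), hSH', hderH' z]
      ring
    rw [hder]
    have b1 : ‖deriv (SS H) z * (E - 1)‖ ≤ M1 * (2 * ‖z‖ ^ n) := by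
      rw [norm_mul]
      exact mul_le_mul (hM1 z (by simpa using hz.le)) hE1 (norm_nonneg _) hM10
    have b2 : ‖(n * z ^ (n - 1) * (SS H z * R z)) * E‖ ≤ (n * ‖z‖ ^ (n - 1) * ‖W z‖) * 3 := by
      have h6 : ‖(n:ℂ) * z ^ (n - 1) * (SS H z * R z)‖ = n * ‖z‖ ^ (n - 1) * ‖W z‖ := by
        rw [norm_mul, norm_mul, norm_pow, Complex.norm_natCast]
      rw [norm_mul, h6]
      exact mul_le_mul_of_nonneg_left hE3 (by positivity)
    have b3 : ‖(z ^ n * deriv R z) * (SS H z * E)‖ ≤ (‖z‖ ^ n * MR) * (1 * 3) := by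
      rw [norm_mul, norm_mul, norm_mul, norm_pow]
      apply mul_le_mul _ _ (by positivity) (by positivity)
      · exact mul_le_mul_of_nonneg_left (hMR z (by simpa using hz.le)) (by positivity)
      · exact mul_le_mul (SS_le_one hH hz.le) hE3 (norm_nonneg _) zero_le_one
    have b0 := norm_sub_le (deriv (SS H) z + deriv (SS H) z * (E - 1) -
        (n * z ^ (n - 1) * (SS H z * R z)) * E) ((z ^ n * deriv R z) * (SS H z * E))
    have b4 := norm_sub_le (deriv (SS H) z + deriv (SS H) z * (E - 1))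
        ((n * z ^ (n - 1) * (SS H z * R z)) * E)
    have b5 := norm_add_le (deriv (SS H) z) (deriv (SS H) z * (E - 1))
    linarith
  have k1 := h2 (deriv H') (cont_deriv hH'd) hD1
  have k2 := h3 (deriv (SS H')) (cont_deriv (SS_diff hH'd)) hD2
  -- integral inequalities on the circle
  have hcu : Continuous (fun θ => (H (cis θ)).re) := cont_re hHc
  have hcR : Continuous (fun θ => R (cis θ)) := hRc.comp continuous_cis
  have hcW : Continuous (fun θ => W (cis θ)) := hWc.comp continuous_cis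
  have hden : ∀ θ, (H (cis θ)).re * √((H (cis θ)).re) ≠ 0 := fun θ =>
    (mul_pos (hH.pos θ) (Real.sqrt_pos.2 (hH.pos θ))).ne'
  have hcI : Continuous (fun θ => ‖R (cis θ)‖ ^ 2 / ((H (cis θ)).re * √((H (cis θ)).re))) :=
    (hcR.norm.pow 2).div (hcu.mul hcu.sqrt) hden
  have hcB : Continuous (fun θ => sig ((H (cis θ)).re) ^ 2 / ((H (cis θ)).re * √((H (cis θ)).re))) :=
    ((sig_cont hcu (fun θ => (hH.pos θ).le)).pow 2).div (hcu.mul hcu.sqrt) hden
  have hππ : -π ≤ π := by linarith [Real.pi_pos]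
  set I := ∫ θ in (-π)..π, ‖R (cis θ)‖ ^ 2 / ((H (cis θ)).re * √((H (cis θ)).re)) with hI
  have hI0 : 0 ≤ I := by
    apply intervalIntegral.integral_nonneg hππ
    intro θ _
    have := hH.pos θ
    positivity
  have hIB : (1 / 4) * BB H ≤ I := by
    unfold BB
    rw [← intervalIntegral.integral_const_mul]
    apply intervalIntegral.integral_mono_on hππ
      ((hcB.const_mul (1/4)).intervalIntegrable _ _) (hcI.intervalIntegrable _ _)
    intro θ _
    have hu := hH.pos θ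
    have hs := sig_pos hu
    rw [mul_div_assoc']
    apply div_le_div_of_nonneg_right _ (by positivity)
    have h5 := hRlo θ
    nlinarith [norm_nonneg (R (cis θ))]
  have hRp : ∫ θ in (-π)..π, ‖R (cis θ)‖ ^ p ≤ C1 * I := by
    rw [hI, ← intervalIntegral.integral_const_mul]
    apply intervalIntegral.integral_mono_on hππ
      ((hcR.norm.rpow_const (fun _ => Or.inr (by linarith))).intervalIntegrable _ _)
      ((hcI.const_mul C1).intervalIntegrable _ _)
    intro θ _
    exact pw1 hp (hH.pos θ) (norm_nonneg _) (hRhi θ)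
  have hWq : ∫ θ in (-π)..π, ‖W (cis θ)‖ ^ q ≤ C2 * I := by
    rw [hI, ← intervalIntegral.integral_const_mul]
    apply intervalIntegral.integral_mono_on hππ
      ((hcW.norm.rpow_const (fun _ => Or.inr (by linarith))).intervalIntegrable _ _)
      ((hcI.const_mul C2).intervalIntegrable _ _)
    intro θ _
    have h5 : ‖W (cis θ)‖ = Real.exp (-(H (cis θ)).re) * ‖R (cis θ)‖ := by
      simp only [hWdef]
      rw [norm_mul, norm_SS]
    rw [h5]
    exact pw2 hq1 hq2 (hH.pos θ) (hRlo θ)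
  have hA : AA H' ≤ AA H - (1 / 16) * I + ε₁ := h1
  have hCA : C * AA H' ≤ C * AA H - (cp + cq) * I + C * ε₁ := by
    have := mul_le_mul_of_nonneg_left hA hC0
    have e : C * (AA H - (1 / 16) * I + ε₁) = C * AA H - (cp + cq) * I + C * ε₁ := by
      rw [hC]; ring
    linarith
  refine ⟨H', hH'S, ?_, ?_, ?_, ?_⟩
  · intro z hz
    have h5 : H' z - H z = z ^ n * R z := by simp only [hH']; ring
    rw [h5, norm_mul, norm_pow]
    have h6 : ‖z‖ ^ n ≤ r ^ n := pow_le_pow_left₀ (norm_nonneg _) hz n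
    have h7 := hR1 z (hz.trans hr1.le)
    have h8 : ‖z‖ ^ n * ‖R z‖ ≤ ‖z‖ ^ n := mul_le_of_le_one_right (by positivity) h7
    linarith
  · linarith
  · have h5 : p * 2 ^ (p - 1) * 1 ^ p * (∫ θ in (-π)..π, ‖R (cis θ)‖ ^ p) ≤ cp * I := by
      have := mul_le_mul_of_nonneg_left hRp (show 0 ≤ p * 2 ^ (p - 1) * 1 ^ p by positivity)
      rw [hcp]; linarith
    have h6 : 0 ≤ cq * I := by positivity
    have h7 : C * ε₁ + ε₁ = ε := by linarith
    linarith
  · have h5 : q * 2 ^ (q - 1) * 3 ^ q * (∫ θ in (-π)..π, ‖W (cis θ)‖ ^ q) ≤ cq * I := by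
      have := mul_le_mul_of_nonneg_left hWq (show 0 ≤ q * 2 ^ (q - 1) * 3 ^ q by positivity)
      rw [hcq]; linarith
    have h6 : 0 ≤ cp * I := by positivity
    have h7 : C * ε₁ + ε₁ = ε := by linarith
    linarith

end Pool.Agent.H57.Cyc
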