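import Mathlib
import Pool.Agent.H57.Cyc.Step

set_option autoImplicit false

namespace Pool.Agent.H57.Cyc

open Filter Topology MeasureTheory Real Metric Set

lemma mean_cis {F : ℂ → ℂ} {r : ℝ} (hr : 0 ≤ r) (hF : DiffContOnCl ℂ F (ball 0 r)) :
    ∫ θ in (-π)..π, F (r * cis θ) = 2 * π * F 0 := by
  have h1 : circleAverage F 0 r = F 0 := by
    apply DiffContOnCl.circleAverage
    rwa [abs_of_nonneg hr]
  rw [circleAverage_def] at h1
  have h2 : ∫ θ in (0:ℝ)..2 * π, F (circleMap 0 r θ) = 2 * π * F 0 := by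
    rw [← h1]
    rw [Complex.real_smul]
    have : (π : ℂ) ≠ 0 := by exact_mod_cast Real.pi_ne_zero
    push_cast
    field_simp
  have h3 : ∀ θ, F (circleMap 0 r θ) = F (r * cis θ) := by
    intro θ
    unfold circleMap cis
    simp
  simp only [h3] at h2
  have hper : Function.Periodic (fun θ : ℝ => F (r * cis θ)) (2 * π) := by
    intro θ
    simp only
    rw [cis_periodic θ]
  have h4 := hper.intervalIntegral_add_eq (-π) 0
  have e1 : -π + 2 * π = π := by ring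
  rw [e1, zero_add] at h4
  rw [h4]
  exact h2

lemma mean_re {H : ℂ → ℂ} (hH : IsState H) : ∫ θ in (-π)..π, (H (cis θ)).re = 2 * π := by
  have h1 := mean_cis (F := H) zero_le_one hH.diff.diffContOnCl
  simp only [Complex.ofReal_one, one_mul, hH.zero, mul_one] at h1
  have hc : Continuous (fun θ => H (cis θ)) := hH.diff.continuous.comp continuous_cis
  have h2 := intervalIntegral.intervalIntegral_re (𝕜 := ℂ) (μ := volume) (hc.intervalIntegrable (-π) π)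
  simp only [RCLike.re_to_complex] at h2
  rw [h2, h1]
  simp

lemma D_bound {H : ℂ → ℂ} (hH : IsState H) {K : ℝ} (hK : 0 < K) :
    ∫ θ in (-π)..π, (1 - ‖SS H (cis θ)‖ ^ 2) ≤ 2 * π / K +
      (8 * (Real.exp (2 * K) * (1 + K) ^ 2)) * BB H := by
  have hcu : Continuous (fun θ => (H (cis θ)).re) := cont_re hH.diff.continuous
  have hden : ∀ θ, (H (cis θ)).re * √((H (cis θ)).re) ≠ 0 := fun θ =>
    (mul_pos (hH.pos θ) (Real.sqrt_pos.2 (hH.pos θ))).ne'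
  have hcB : Continuous (fun θ => sig ((H (cis θ)).re) ^ 2 / ((H (cis θ)).re * √((H (cis θ)).re))) :=
    ((sig_cont hcu (fun θ => (hH.pos θ).le)).pow 2).div (hcu.mul hcu.sqrt) hden
  have hππ : -π ≤ π := by linarith [Real.pi_pos]
  have hc0 : Continuous (fun θ => 1 - ‖SS H (cis θ)‖ ^ 2) :=
    continuous_const.sub (((SS_diff hH.diff).continuous.comp continuous_cis).norm.pow 2)
  have hc1 : Continuous (fun θ => (H (cis θ)).re / K) := hcu.div_const K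
  have hc2 : Continuous (fun θ => (8 * (Real.exp (2 * K) * (1 + K) ^ 2)) *
      (sig ((H (cis θ)).re) ^ 2 / ((H (cis θ)).re * √((H (cis θ)).re)))) := hcB.const_mul _
  have h1 : ∫ θ in (-π)..π, (1 - ‖SS H (cis θ)‖ ^ 2) ≤ ∫ θ in (-π)..π, ((H (cis θ)).re / K +
      (8 * (Real.exp (2 * K) * (1 + K) ^ 2)) *
        (sig ((H (cis θ)).re) ^ 2 / ((H (cis θ)).re * √((H (cis θ)).re)))) := by
    apply intervalIntegral.integral_mono_on hππ (hc0.intervalIntegrable _ _)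
      ((hc1.add hc2).intervalIntegrable _ _)
    intro θ _
    rw [norm_SS]
    exact pw3 hK (hH.pos θ)
  refine h1.trans (le_of_eq ?_)
  rw [intervalIntegral.integral_add (hc1.intervalIntegrable _ _) (hc2.intervalIntegrable _ _),
    intervalIntegral.integral_div, mean_re hH, intervalIntegral.integral_const_mul]
  rfl

lemma exists_seq_rel {α : Type*} (P : ℕ → α → Prop) (R : ℕ → α → α → Prop)
    (h0 : ∃ a, P 0 a) (h : ∀ n a, P n a → ∃ b, P (n + 1) b ∧ R n a b) :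
    ∃ x : ℕ → α, (∀ n, P n (x n)) ∧ ∀ n, R n (x n) (x (n + 1)) := by
  classical
  obtain ⟨a0, ha0⟩ := h0
  choose f hf1 hf2 using h
  let g : (n : ℕ) → {a // P n a} := fun n =>
    Nat.rec (motive := fun n => {a // P n a}) ⟨a0, ha0⟩ (fun n a => ⟨f n a.1 a.2, hf1 n a.1 a.2⟩) n
  refine ⟨fun n => (g n).1, fun n => (g n).2, ?_⟩
  intro n
  exact hf2 n (g n).1 (g n).2

/-- choice of the radius. -/
lemma exists_radius {F : ℂ → ℂ} (hF : Continuous F) {η : ℝ} (hη : 0 < η) {s : ℝ} (hs : s < 1) :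
    ∃ r : ℝ, 0 ≤ r ∧ r < 1 ∧ s ≤ r ∧ ∀ θ, ‖F (r * cis θ) - F (cis θ)‖ ≤ η := by
  obtain ⟨δ, hδ, h⟩ := unif_cont hF hη
  refine ⟨max 0 (max s (1 - δ / 2)), le_max_left _ _, ?_, ?_, ?_⟩
  · apply max_lt zero_lt_one (max_lt hs (by linarith))
  · exact (le_max_left _ _).trans (le_max_right _ _)
  · intro θ
    set r := max 0 (max s (1 - δ / 2)) with hr
    have hr0 : 0 ≤ r := le_max_left _ _
    have hr1 : r < 1 := max_lt zero_lt_one (max_lt hs (by linarith))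
    have hr2 : 1 - δ / 2 ≤ r := (le_max_right _ _).trans (le_max_right _ _)
    apply (h _ _ _ _ _).le
    · rw [norm_mul_cis hr0]; exact hr1.le
    · exact (norm_cis θ).le
    · have : (r:ℂ) * cis θ - cis θ = ((r - 1 : ℝ) : ℂ) * cis θ := by push_cast; ring
      rw [this, norm_mul, norm_cis, mul_one, Complex.norm_real, Real.norm_eq_abs, abs_sub_comm,
        abs_of_nonneg (by linarith)]
      linarith

/-- The whole sequence of approximants. -/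
lemma exists_sequence {p q : ℝ} (hp : 2 < p) (hq1 : 1 < q) (hq2 : q < 2) :
    ∃ (C : ℝ) (H : ℕ → ℂ → ℂ) (r : ℕ → ℝ), 0 ≤ C ∧ (∀ j, IsState (H j)) ∧
      (∀ j, 0 ≤ r j ∧ r j < 1 ∧ 1 - (1 / 2) ^ j ≤ r j) ∧ (∀ j, r j ≤ r (j + 1)) ∧
      (∀ j θ, ‖SS (H j) (r j * cis θ) - SS (H j) (cis θ)‖ ≤ (1 / 2) ^ j) ∧
      (∀ j z, ‖z‖ ≤ r j → ‖H (j + 1) z - H j z‖ ≤ (1 / 2) ^ j) ∧
      (∀ j, AA (H (j + 1)) ≤ AA (H j) - (1 / 64) * BB (H j) + (1 / 2) ^ j) ∧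
      (∀ j, wInt p (deriv (H (j + 1))) + C * AA (H (j + 1)) ≤
        wInt p (deriv (H j)) + C * AA (H j) + (1 / 2) ^ j) ∧
      (∀ j, wInt q (deriv (SS (H (j + 1)))) + C * AA (H (j + 1)) ≤
        wInt q (deriv (SS (H j))) + C * AA (H j) + (1 / 2) ^ j) := by
  obtain ⟨C, hC, hstep⟩ := step hp hq1 hq2
  let P : ℕ → ((ℂ → ℂ) × ℝ) → Prop := fun j x => IsState x.1 ∧
    (0 ≤ x.2 ∧ x.2 < 1 ∧ 1 - (1 / 2 : ℝ) ^ j ≤ x.2) ∧
    ∀ θ, ‖SS x.1 (x.2 * cis θ) - SS x.1 (cis θ)‖ ≤ (1 / 2) ^ j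
  let Rl : ℕ → ((ℂ → ℂ) × ℝ) → ((ℂ → ℂ) × ℝ) → Prop := fun j x y =>
    x.2 ≤ y.2 ∧ (∀ z, ‖z‖ ≤ x.2 → ‖y.1 z - x.1 z‖ ≤ (1 / 2) ^ j) ∧
    AA y.1 ≤ AA x.1 - (1 / 64) * BB x.1 + (1 / 2) ^ j ∧
    wInt p (deriv y.1) + C * AA y.1 ≤ wInt p (deriv x.1) + C * AA x.1 + (1 / 2) ^ j ∧
    wInt q (deriv (SS y.1)) + C * AA y.1 ≤ wInt q (deriv (SS x.1)) + C * AA x.1 + (1 / 2) ^ j
  have h0 : ∃ a, P 0 a := by
    have hst : IsState (fun _ => (1:ℂ)) := ⟨differentiable_const _, rfl, fun θ => by simp⟩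
    obtain ⟨r, hr0, hr1, _, hr3⟩ := exists_radius (SS_diff hst.diff).continuous
      (η := (1 / 2) ^ 0) (by norm_num) (s := 0) zero_lt_one
    exact ⟨⟨fun _ => 1, r⟩, hst, ⟨hr0, hr1, by simpa using hr0⟩, hr3⟩
  have h1 : ∀ n a, P n a → ∃ b, P (n + 1) b ∧ Rl n a b := by
    intro n a ⟨hst, ⟨hr0, hr1, hr2⟩, hr3⟩
    obtain ⟨H', hst', hd, hA, hp', hq'⟩ := hstep a.1 hst ((1 / 2) ^ n) (by positivity) a.2 hr0 hr1
    have hpow : (0:ℝ) < (1 / 2) ^ (n + 1) := by positivity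
    obtain ⟨r', hr0', hr1', hr2', hr3'⟩ := exists_radius (SS_diff hst'.diff).continuous
      (η := (1 / 2) ^ (n + 1)) hpow (s := max a.2 (1 - (1 / 2) ^ (n + 1)))
      (max_lt hr1 (by linarith))
    exact ⟨⟨H', r'⟩, ⟨hst', ⟨hr0', hr1', (le_max_right _ _).trans hr2'⟩, hr3'⟩,
      (le_max_left _ _).trans hr2', hd, hA, hp', hq'⟩
  obtain ⟨x, hx1, hx2⟩ := exists_seq_rel P Rl h0 h1
  exact ⟨C, fun j => (x j).1, fun j => (x j).2, hC, fun j => (hx1 j).1, fun j => (hx1 j).2.1,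
    fun j => (hx2 j).1, fun j => (hx1 j).2.2, fun j => (hx2 j).2.1, fun j => (hx2 j).2.2.1,
    fun j => (hx2 j).2.2.2.1, fun j => (hx2 j).2.2.2.2⟩

end Pool.Agent.H57.Cyc
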