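import Mathlib
import Pool.Agent.H57.Cyc.Seq

set_option autoImplicit false

namespace Pool.Agent.H57.Cyc

open Filter Topology MeasureTheory Real Metric Set

lemma limit_exists (H : ℕ → ℂ → ℂ) (r : ℕ → ℝ) (hmono : ∀ j, r j ≤ r (j + 1))
    (hd : ∀ j z, ‖z‖ ≤ r j → ‖H (j + 1) z - H j z‖ ≤ (1 / 2) ^ j) :
    ∃ G : ℂ → ℂ, ∀ j z, ‖z‖ ≤ r j → ‖G z - H j z‖ ≤ 2 * (1 / 2) ^ j := by
  refine ⟨fun z => limUnder atTop (fun j => H j z), ?_⟩
  intro j z hz
  have hm : Monotone r := monotone_nat_of_le_succ hmono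
  have hu : ∀ k : ℕ, dist (H (j + k) z) (H (j + (k + 1)) z) ≤ (1 / 2) ^ j * (1 / 2) ^ k := by
    intro k
    rw [dist_comm, dist_eq_norm, ← pow_add]
    exact hd (j + k) z (hz.trans (hm (by omega)))
  have hc : CauchySeq (fun k => H (j + k) z) :=
    cauchySeq_of_le_geometric (1 / 2) ((1 / 2) ^ j) (by norm_num) hu
  obtain ⟨a, ha⟩ := cauchySeq_tendsto_of_complete hc
  have ha' : Tendsto (fun k => H k z) atTop (𝓝 a) := by
    rw [← tendsto_add_atTop_iff_nat j]
    simpa [add_comm] using ha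
  have hG : limUnder atTop (fun j => H j z) = a := ha'.limUnder_eq
  have h1 := dist_le_of_le_geometric_of_tendsto₀ (1 / 2) ((1 / 2) ^ j) (by norm_num) hu ha
  simp only [add_zero] at h1
  simp only [hG]
  rw [← dist_eq_norm, dist_comm]
  refine h1.trans (le_of_eq ?_)
  norm_num
  ring

lemma tlu {H : ℕ → ℂ → ℂ} {r : ℕ → ℝ} {G : ℂ → ℂ}
    (hr : ∀ j, 0 ≤ r j ∧ r j < 1 ∧ 1 - (1 / 2) ^ j ≤ r j) (hmono : ∀ j, r j ≤ r (j + 1))
    (hG : ∀ j z, ‖z‖ ≤ r j → ‖G z - H j z‖ ≤ 2 * (1 / 2) ^ j) :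
    TendstoLocallyUniformlyOn H G atTop (ball (0:ℂ) 1) := by
  rw [Metric.tendstoLocallyUniformlyOn_iff]
  intro ε hε x hx
  have hx1 : ‖x‖ < 1 := by simpa using hx
  have hm : Monotone r := monotone_nat_of_le_succ hmono
  have hlim : Tendsto (fun j : ℕ => (1 / 2 : ℝ) ^ j) atTop (𝓝 0) :=
    tendsto_pow_atTop_nhds_zero_of_lt_one (by norm_num) (by norm_num)
  obtain ⟨j, hj⟩ := (hlim.eventually (gt_mem_nhds (show (0:ℝ) < 1 - ‖x‖ by linarith))).exists
  have hxj : ‖x‖ < r j := by linarith [(hr j).2.2]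
  refine ⟨ball 0 (r j), mem_nhdsWithin_of_mem_nhds (isOpen_ball.mem_nhds (by simpa using hxj)), ?_⟩
  have hlim2 : Tendsto (fun j : ℕ => 2 * (1 / 2 : ℝ) ^ j) atTop (𝓝 0) := by
    simpa using hlim.const_mul 2
  filter_upwards [hlim2.eventually (gt_mem_nhds hε), eventually_ge_atTop j] with n hn hjn
  intro y hy
  have hy1 : ‖y‖ < r j := by simpa using hy
  rw [dist_eq_norm]
  exact (hG n y (hy1.le.trans (hm hjn))).trans_lt hn

lemma fatou_w {p : ℝ} (hp : 1 < p) {D : ℕ → ℂ → ℂ} {D0 : ℂ → ℂ} (hD : ∀ j, Continuous (D j))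
    (hlim : ∀ z ∈ ball (0:ℂ) 1, Tendsto (fun j => D j z) atTop (𝓝 (D0 z))) {B : ℝ}
    (hB : ∀ j, wInt p (D j) ≤ B) :
    ∫⁻ z in ball (0:ℂ) 1, ENNReal.ofReal ((1 - ‖z‖) ^ (p - 1) * ‖D0 z‖ ^ p) ≤
      ENNReal.ofReal B := by
  have hp0 : 0 ≤ p := by linarith
  have h1 : ∫⁻ z in ball (0:ℂ) 1, ENNReal.ofReal ((1 - ‖z‖) ^ (p - 1) * ‖D0 z‖ ^ p) =
      ∫⁻ z in ball (0:ℂ) 1, liminf (fun j => ENNReal.ofReal ((1 - ‖z‖) ^ (p - 1) * ‖D j z‖ ^ p))
        atTop := by
    apply setLIntegral_congr_fun measurableSet_ball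
    intro z hz
    have h2 : Tendsto (fun j => ENNReal.ofReal ((1 - ‖z‖) ^ (p - 1) * ‖D j z‖ ^ p)) atTop
        (𝓝 (ENNReal.ofReal ((1 - ‖z‖) ^ (p - 1) * ‖D0 z‖ ^ p))) :=
      ENNReal.tendsto_ofReal (((hlim z hz).norm.rpow_const (Or.inr hp0)).const_mul _)
    exact h2.liminf_eq.symm
  rw [h1]
  refine (lintegral_liminf_le' (fun j => ?_)).trans ?_
  · exact ((cont_w hp (hD j)).measurable.ennreal_ofReal).aemeasurable
  · have h3 : ∀ j, ∫⁻ z in ball (0:ℂ) 1, ENNReal.ofReal ((1 - ‖z‖) ^ (p - 1) * ‖D j z‖ ^ p) ≤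
        ENNReal.ofReal B := by
      intro j
      rw [← ofReal_integral_eq_lintegral_ofReal (int_ball (cont_w hp (hD j)))]
      · exact ENNReal.ofReal_le_ofReal (hB j)
      · rw [EventuallyLE, ae_restrict_iff' measurableSet_ball]
        refine Eventually.of_forall ?_
        intro z hz
        have hz1 : ‖z‖ < 1 := by simpa using hz
        have : 0 ≤ 1 - ‖z‖ := by linarith
        simp only [Pi.zero_apply]
        positivity
    calc liminf (fun j => ∫⁻ z in ball (0:ℂ) 1, ENNReal.ofReal ((1 - ‖z‖) ^ (p - 1) * ‖D j z‖ ^ p))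
          atTop ≤ liminf (fun _ : ℕ => ENNReal.ofReal B) atTop :=
          liminf_le_liminf (Eventually.of_forall h3)
      _ = ENNReal.ofReal B := liminf_const _

/-- The building block of the counterexample. -/
theorem exists_pair {p q : ℝ} (hp : 2 < p) (hq1 : 1 < q) (hq2 : q < 2) :
    ∃ (G : ℂ → ℂ) (ρ : ℕ → ℝ), DifferentiableOn ℂ G (ball 0 1) ∧ G 0 = 1 ∧
      (∀ z ∈ ball (0:ℂ) 1, ‖SS G z‖ ≤ 1) ∧
      ∫⁻ z in ball (0:ℂ) 1, ENNReal.ofReal ((1 - ‖z‖) ^ (p - 1) * ‖deriv G z‖ ^ p) < ⊤ ∧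
      ∫⁻ z in ball (0:ℂ) 1, ENNReal.ofReal ((1 - ‖z‖) ^ (q - 1) * ‖deriv (SS G) z‖ ^ q) < ⊤ ∧
      (∀ j, 0 ≤ ρ j ∧ ρ j < 1) ∧ Tendsto ρ atTop (𝓝 1) ∧
      Tendsto (fun j => ∫ θ in (-π)..π, (1 - ‖SS G (ρ j * cis θ)‖ ^ 2)) atTop (𝓝 0) := by
  obtain ⟨C, H, r, hC, hst, hr, hmono, hrad, hd, hA, hP, hQ⟩ := exists_sequence hp hq1 hq2
  obtain ⟨G, hG⟩ := limit_exists H r hmono hd
  have htlu := tlu hr hmono hG
  have hππ : -π ≤ π := by linarith [Real.pi_pos]
  have hGd : DifferentiableOn ℂ G (ball 0 1) :=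
    htlu.differentiableOn (Eventually.of_forall fun j => (hst j).diff.differentiableOn) isOpen_ball
  have hGder := htlu.deriv (Eventually.of_forall fun j => (hst j).diff.differentiableOn) isOpen_ball
  have hlimH : ∀ z ∈ ball (0:ℂ) 1, Tendsto (fun j => H j z) atTop (𝓝 (G z)) :=
    fun z hz => htlu.tendsto_at hz
  have hlimD : ∀ z ∈ ball (0:ℂ) 1, Tendsto (fun j => deriv (H j) z) atTop (𝓝 (deriv G z)) :=
    fun z hz => hGder.tendsto_at hz
  have hlimS : ∀ z ∈ ball (0:ℂ) 1, Tendsto (fun j => SS (H j) z) atTop (𝓝 (SS G z)) := by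
    intro z hz
    unfold SS
    exact (Complex.continuous_exp.tendsto _).comp (hlimH z hz).neg
  have hlimDS : ∀ z ∈ ball (0:ℂ) 1,
      Tendsto (fun j => deriv (SS (H j)) z) atTop (𝓝 (deriv (SS G) z)) := by
    intro z hz
    rw [deriv_SS (hGd.differentiableAt (isOpen_ball.mem_nhds hz))]
    have : ∀ j, deriv (SS (H j)) z = - deriv (H j) z * SS (H j) z :=
      fun j => deriv_SS ((hst j).diff z)
    simp only [this]
    exact (hlimD z hz).neg.mul (hlimS z hz)
  have h0mem : (0:ℂ) ∈ ball (0:ℂ) 1 := by simp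
  have hG0 : G 0 = 1 := by
    have h1 : Tendsto (fun j => H j 0) atTop (𝓝 1) := by
      simp only [fun j => (hst j).zero]
      exact tendsto_const_nhds
    exact tendsto_nhds_unique (hlimH 0 h0mem) h1
  have hS1 : ∀ z ∈ ball (0:ℂ) 1, ‖SS G z‖ ≤ 1 := by
    intro z hz
    have hz1 : ‖z‖ < 1 := by simpa using hz
    exact le_of_tendsto (hlimS z hz).norm
      (Eventually.of_forall fun j => SS_le_one (hst j) hz1.le)
  -- summability
  have hAA0 : ∀ j, 0 ≤ AA (H j) := by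
    intro j
    apply intervalIntegral.integral_nonneg hππ
    intro θ _
    exact Real.sqrt_nonneg _
  have hBB0 : ∀ j, 0 ≤ BB (H j) := by
    intro j
    apply intervalIntegral.integral_nonneg hππ
    intro θ _
    have := (hst j).pos θ
    positivity
  have hgeo : ∀ n : ℕ, ∑ i ∈ Finset.range n, (1 / 2 : ℝ) ^ i ≤ 2 := by
    intro n
    have h1 := geom_sum_mul (1 / 2 : ℝ) n
    have h2 : (0:ℝ) ≤ (1 / 2) ^ n := by positivity
    linarith
  have tele : ∀ f : ℕ → ℝ, (∀ j, f (j + 1) ≤ f j + (1 / 2) ^ j) → ∀ n, f n ≤ f 0 + 2 := by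
    intro f hf n
    have h1 : ∀ n, f n ≤ f 0 + ∑ i ∈ Finset.range n, (1 / 2 : ℝ) ^ i := by
      intro n
      induction n with
      | zero => simp
      | succ n ih =>
        rw [Finset.sum_range_succ]
        linarith [hf n]
    linarith [h1 n, hgeo n]
  have hPb := tele (fun j => wInt p (deriv (H j)) + C * AA (H j)) hP
  have hQb := tele (fun j => wInt q (deriv (SS (H j))) + C * AA (H j)) hQ
  have hP1 : ∀ j, wInt p (deriv (H j)) ≤ wInt p (deriv (H 0)) + C * AA (H 0) + 2 := by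
    intro j
    have h1 := hPb j
    have h2 := mul_nonneg hC (hAA0 j)
    linarith
  have hQ1 : ∀ j, wInt q (deriv (SS (H j))) ≤ wInt q (deriv (SS (H 0))) + C * AA (H 0) + 2 := by
    intro j
    have h1 := hQb j
    have h2 := mul_nonneg hC (hAA0 j)
    linarith
  have hsumBB : Summable (fun j => BB (H j)) := by
    apply summable_of_sum_range_le (c := 64 * (AA (H 0) + 2)) hBB0
    intro n
    have h1 : ∀ n, (1 / 64) * ∑ i ∈ Finset.range n, BB (H i) + AA (H n) ≤
        AA (H 0) + ∑ i ∈ Finset.range n, (1 / 2 : ℝ) ^ i := by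
      intro n
      induction n with
      | zero => simp
      | succ n ih =>
        rw [Finset.sum_range_succ, Finset.sum_range_succ]
        linarith [hA n]
    linarith [h1 n, hgeo n, hAA0 n]
  have hBBlim : Tendsto (fun j => BB (H j)) atTop (𝓝 0) := hsumBB.tendsto_atTop_zero
  -- boundary means
  have hDlim : Tendsto (fun j => ∫ θ in (-π)..π, (1 - ‖SS (H j) (cis θ)‖ ^ 2)) atTop (𝓝 0) := by
    rw [Metric.tendsto_atTop]
    intro ε hε
    set K : ℝ := 4 * π / ε with hK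
    have hπ := Real.pi_pos
    have hK0 : 0 < K := by positivity
    have hK2 : 2 * π / K = ε / 2 := by rw [hK]; field_simp; norm_num
    set c : ℝ := 8 * (Real.exp (2 * K) * (1 + K) ^ 2) with hc
    have hc0 : 0 < c := by positivity
    have h1 := hBBlim.eventually (gt_mem_nhds (show (0:ℝ) < ε / (2 * c) by positivity))
    obtain ⟨N, hN⟩ := eventually_atTop.1 h1
    refine ⟨N, fun n hn => ?_⟩
    have h2 := D_bound (hst n) hK0
    have h3 := hN n hn
    have h4 : c * BB (H n) < ε / 2 := by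
      rw [lt_div_iff₀ (by positivity)] at h3
      linarith
    have h5 : 0 ≤ ∫ θ in (-π)..π, (1 - ‖SS (H n) (cis θ)‖ ^ 2) := by
      apply intervalIntegral.integral_nonneg hππ
      intro θ _
      have h6 := SS_le_one (hst n) (norm_cis θ).le
      have h7 : ‖SS (H n) (cis θ)‖ ^ 2 ≤ 1 := pow_le_one₀ (norm_nonneg _) h6
      linarith
    rw [Real.dist_eq, sub_zero, abs_of_nonneg h5]
    rw [hK2] at h2
    linarith
  -- compare
  have hlim0 : Tendsto (fun j : ℕ => (1 / 2 : ℝ) ^ j) atTop (𝓝 0) :=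
    tendsto_pow_atTop_nhds_zero_of_lt_one (by norm_num) (by norm_num)
  have hrlim : Tendsto r atTop (𝓝 1) := by
    apply tendsto_of_tendsto_of_tendsto_of_le_of_le (g := fun j : ℕ => 1 - (1 / 2 : ℝ) ^ j)
      (h := fun _ => 1) _ tendsto_const_nhds (fun j => (hr j).2.2) (fun j => (hr j).2.1.le)
    simpa using hlim0.const_sub 1
  have hSGd : DifferentiableOn ℂ (SS G) (ball 0 1) := by
    unfold SS
    exact hGd.neg.cexp
  have hcmp : ∀ j, 1 ≤ j → ∀ θ, ‖SS G (r j * cis θ) - SS (H j) (cis θ)‖ ≤ 5 * (1 / 2) ^ j := by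
    intro j hj θ
    set w : ℂ := r j * cis θ with hw
    have hwn : ‖w‖ = r j := norm_mul_cis (hr j).1 θ
    have h1 := hG j w hwn.le
    have h2 : (2:ℝ) * (1 / 2) ^ j ≤ 1 := by
      obtain ⟨m, rfl⟩ : ∃ m, j = m + 1 := ⟨j - 1, by omega⟩
      rw [pow_succ]
      have : (1 / 2 : ℝ) ^ m ≤ 1 := pow_le_one₀ (by norm_num) (by norm_num)
      linarith
    have h3 : SS G w - SS (H j) w = SS (H j) w * (Complex.exp (-(G w - H j w)) - 1) := by
      simp only [SS]
      rw [mul_sub, ← Complex.exp_add, mul_one]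
      congr 2
      ring
    have h4 : ‖SS G w - SS (H j) w‖ ≤ 4 * (1 / 2) ^ j := by
      rw [h3, norm_mul]
      have h5 := Complex.norm_exp_sub_one_le (x := -(G w - H j w)) (by rw [norm_neg]; linarith)
      rw [norm_neg] at h5
      have h6 := SS_le_one (hst j) (z := w) (by rw [hwn]; exact (hr j).2.1.le)
      calc ‖SS (H j) w‖ * ‖Complex.exp (-(G w - H j w)) - 1‖ ≤ 1 * (2 * (2 * (1 / 2) ^ j)) := by
            apply mul_le_mul h6 _ (norm_nonneg _) zero_le_one
            linarith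
        _ = 4 * (1 / 2) ^ j := by ring
    have h7 := hrad j θ
    have h8 := norm_add_le (SS G w - SS (H j) w) (SS (H j) w - SS (H j) (cis θ))
    rw [sub_add_sub_cancel] at h8
    linarith
  refine ⟨G, r, hGd, hG0, hS1, ?_, ?_, fun j => ⟨(hr j).1, (hr j).2.1⟩, hrlim, ?_⟩
  · exact (fatou_w (by linarith) (fun j => cont_deriv (hst j).diff) hlimD hP1).trans_lt
      ENNReal.ofReal_lt_top
  · exact (fatou_w hq1 (fun j => cont_deriv (SS_diff (hst j).diff)) hlimDS hQ1).trans_lt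
      ENNReal.ofReal_lt_top
  · -- the means tend to zero
    have hcontG : ∀ j, Continuous (fun θ => SS G (r j * cis θ)) := by
      intro j
      have hc : Continuous (fun θ : ℝ => (r j : ℂ) * cis θ) := continuous_const.mul continuous_cis
      apply hSGd.continuousOn.comp_continuous hc
      intro θ
      rw [mem_ball_zero_iff, norm_mul_cis (hr j).1]
      exact (hr j).2.1
    have hcontH : ∀ j, Continuous (fun θ => SS (H j) (cis θ)) := fun j =>
      (SS_diff (hst j).diff).continuous.comp continuous_cis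
    have hup : ∀ᶠ j in atTop, ∫ θ in (-π)..π, (1 - ‖SS G (r j * cis θ)‖ ^ 2) ≤
        (∫ θ in (-π)..π, (1 - ‖SS (H j) (cis θ)‖ ^ 2)) + 2 * π * (10 * (1 / 2) ^ j) := by
      filter_upwards [eventually_ge_atTop 1] with j hj
      have hcA : Continuous (fun θ => 1 - ‖SS G (r j * cis θ)‖ ^ 2) :=
        continuous_const.sub ((hcontG j).norm.pow 2)
      have hcB : Continuous (fun θ => 1 - ‖SS (H j) (cis θ)‖ ^ 2) :=
        continuous_const.sub ((hcontH j).norm.pow 2)
      have hcC : Continuous (fun θ => (1 - ‖SS (H j) (cis θ)‖ ^ 2) + 10 * (1 / 2) ^ j) :=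
        hcB.add continuous_const
      have h1 : ∫ θ in (-π)..π, (1 - ‖SS G (r j * cis θ)‖ ^ 2) ≤
          ∫ θ in (-π)..π, ((1 - ‖SS (H j) (cis θ)‖ ^ 2) + 10 * (1 / 2) ^ j) := by
        apply intervalIntegral.integral_mono_on hππ
          (hcA.intervalIntegrable _ _) (hcC.intervalIntegrable _ _)
        intro θ _
        have h2 := hcmp j hj θ
        have h3 := abs_norm_sub_norm_le (SS G (r j * cis θ)) (SS (H j) (cis θ))
        have h4 := (abs_le.1 (h3.trans h2)).1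
        have h5 : ‖SS G (r j * cis θ)‖ ≤ 1 := hS1 _ (by
          rw [mem_ball_zero_iff, norm_mul_cis (hr j).1]; exact (hr j).2.1)
        have h6 := SS_le_one (hst j) (norm_cis θ).le
        have h7 := norm_nonneg (SS G (r j * cis θ))
        have h8 := norm_nonneg (SS (H j) (cis θ))
        have h9 : (0:ℝ) ≤ (1 / 2) ^ j := by positivity
        nlinarith
      refine h1.trans (le_of_eq ?_)
      rw [intervalIntegral.integral_add
        (hcB.intervalIntegrable _ _)
        (continuous_const.intervalIntegrable _ _), intervalIntegral.integral_const]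
      simp only [smul_eq_mul]
      ring
    have hlow : ∀ j, 0 ≤ ∫ θ in (-π)..π, (1 - ‖SS G (r j * cis θ)‖ ^ 2) := by
      intro j
      apply intervalIntegral.integral_nonneg hππ
      intro θ _
      have h5 : ‖SS G (r j * cis θ)‖ ≤ 1 := hS1 _ (by
          rw [mem_ball_zero_iff, norm_mul_cis (hr j).1]; exact (hr j).2.1)
      have h7 : ‖SS G (r j * cis θ)‖ ^ 2 ≤ 1 := pow_le_one₀ (norm_nonneg _) h5
      linarith
    have hlimup : Tendsto (fun j : ℕ => (∫ θ in (-π)..π, (1 - ‖SS (H j) (cis θ)‖ ^ 2)) +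
        2 * π * (10 * (1 / 2 : ℝ) ^ j)) atTop (𝓝 0) := by
      have := hDlim.add ((hlim0.const_mul 10).const_mul (2 * π))
      simpa using this
    exact tendsto_of_tendsto_of_tendsto_of_le_of_le' tendsto_const_nhds hlimup
      (Eventually.of_forall hlow) hup

end Pool.Agent.H57.Cyc
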