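import Mathlib
import Pool.Agent.H57.Cyc.DualTwo
import Pool.Agent.H57.Cyc.Limit
import Pool.Agent.H57.Cyc.Defs

set_option autoImplicit false

namespace Pool.Agent.H57.Cyc

open Filter Topology MeasureTheory Real Metric Set
open scoped NNReal ENNReal

lemma holder_bound {p q : ℝ} (hpq : p.HolderConjugate q) {D g : ℂ → ℂ}
    (hD : ContinuousOn D (ball 0 1)) (hg : ContinuousOn g (ball 0 1)) {r : ℝ} (hr0 : 0 < r)
    (hr1 : r < 1) :
    ‖∫ z in ball (0:ℂ) r, ((1 - ‖z‖ ^ 2 / r ^ 2 : ℝ) : ℂ) * (D z * (starRingEnd ℂ) (g z))‖ₑ ≤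
      2 * ((∫⁻ z in ball (0:ℂ) 1, ENNReal.ofReal ((1 - ‖z‖) ^ (p - 1) * ‖D z‖ ^ p)) ^ (1 / p) *
        (∫⁻ z in ball (0:ℂ) 1, ENNReal.ofReal ((1 - ‖z‖) ^ (q - 1) * ‖g z‖ ^ q)) ^ (1 / q)) := by
  have hp := hpq.pos
  have hq := hpq.symm.pos
  have hp1 : 1 < p := hpq.lt
  have hq1 : 1 < q := hpq.symm.lt
  have hpqe := hpq.inv_add_inv_eq_one
  have hexp : (p - 1) / p + (q - 1) / q = 1 := by
    have e1 : (p - 1) / p = 1 - p⁻¹ := by field_simp
    have e2 : (q - 1) / q = 1 - q⁻¹ := by field_simp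
    rw [e1, e2]; linarith
  set a : ℂ → ℝ≥0∞ := fun z => ENNReal.ofReal ((1 - ‖z‖) ^ ((p - 1) / p) * ‖D z‖) with ha
  set b : ℂ → ℝ≥0∞ := fun z => ENNReal.ofReal ((1 - ‖z‖) ^ ((q - 1) / q) * ‖g z‖) with hb
  have hwc : ∀ s : ℝ, 0 ≤ s → Continuous (fun z : ℂ => (1 - ‖z‖) ^ s) := fun s hs =>
    (continuous_const.sub continuous_norm).rpow_const (fun _ => Or.inr hs)
  have ham : AEMeasurable a (volume.restrict (ball (0:ℂ) 1)) := by
    apply AEMeasurable.ennreal_ofReal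
    exact (((hwc _ (by apply div_nonneg <;> linarith)).continuousOn).mul hD.norm).aemeasurable
      measurableSet_ball
  have hbm : AEMeasurable b (volume.restrict (ball (0:ℂ) 1)) := by
    apply AEMeasurable.ennreal_ofReal
    exact (((hwc _ (by apply div_nonneg <;> linarith)).continuousOn).mul hg.norm).aemeasurable
      measurableSet_ball
  have hap : ∫⁻ z in ball (0:ℂ) 1, a z ^ p =
      ∫⁻ z in ball (0:ℂ) 1, ENNReal.ofReal ((1 - ‖z‖) ^ (p - 1) * ‖D z‖ ^ p) := by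
    apply setLIntegral_congr_fun measurableSet_ball
    intro z hz
    have hz1 : ‖z‖ < 1 := by simpa using hz
    have hz2 : 0 ≤ 1 - ‖z‖ := by linarith
    simp only [ha]
    rw [ENNReal.ofReal_rpow_of_nonneg (by positivity) hp.le, Real.mul_rpow (by positivity)
      (norm_nonneg _), ← Real.rpow_mul hz2, div_mul_cancel₀ _ hp.ne']
  have hbq : ∫⁻ z in ball (0:ℂ) 1, b z ^ q =
      ∫⁻ z in ball (0:ℂ) 1, ENNReal.ofReal ((1 - ‖z‖) ^ (q - 1) * ‖g z‖ ^ q) := by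
    apply setLIntegral_congr_fun measurableSet_ball
    intro z hz
    have hz1 : ‖z‖ < 1 := by simpa using hz
    have hz2 : 0 ≤ 1 - ‖z‖ := by linarith
    simp only [hb]
    rw [ENNReal.ofReal_rpow_of_nonneg (by positivity) hq.le, Real.mul_rpow (by positivity)
      (norm_nonneg _), ← Real.rpow_mul hz2, div_mul_cancel₀ _ hq.ne']
  have hH := ENNReal.lintegral_mul_le_Lp_mul_Lq (volume.restrict (ball (0:ℂ) 1)) hpq ham hbm
  rw [hap, hbq] at hH
  calc ‖∫ z in ball (0:ℂ) r, ((1 - ‖z‖ ^ 2 / r ^ 2 : ℝ) : ℂ) * (D z * (starRingEnd ℂ) (g z))‖ₑ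
      ≤ ∫⁻ z in ball (0:ℂ) r, ‖((1 - ‖z‖ ^ 2 / r ^ 2 : ℝ) : ℂ) * (D z * (starRingEnd ℂ) (g z))‖ₑ :=
        enorm_integral_le_lintegral_enorm _
    _ ≤ ∫⁻ z in ball (0:ℂ) r, 2 * (a * b) z := by
        apply setLIntegral_mono' measurableSet_ball
        intro z hz
        have hzr : ‖z‖ < r := by simpa using hz
        have hz1 : ‖z‖ < 1 := by linarith
        have hz2 : 0 < 1 - ‖z‖ := by linarith
        have hz0 := norm_nonneg z
        have e1 : (a * b) z = ENNReal.ofReal ((1 - ‖z‖) * (‖D z‖ * ‖g z‖)) := by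
          simp only [Pi.mul_apply, ha, hb]
          rw [← ENNReal.ofReal_mul (by positivity)]
          congr 1
          have : (1 - ‖z‖) ^ ((p - 1) / p) * (1 - ‖z‖) ^ ((q - 1) / q) = 1 - ‖z‖ := by
            rw [← Real.rpow_add hz2, hexp, Real.rpow_one]
          calc (1 - ‖z‖) ^ ((p - 1) / p) * ‖D z‖ * ((1 - ‖z‖) ^ ((q - 1) / q) * ‖g z‖)
              = ((1 - ‖z‖) ^ ((p - 1) / p) * (1 - ‖z‖) ^ ((q - 1) / q)) * (‖D z‖ * ‖g z‖) := by ring
            _ = _ := by rw [this]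
        rw [e1]
        have e2 : (2 : ℝ≥0∞) = ENNReal.ofReal 2 := by simp
        rw [e2, ← ENNReal.ofReal_mul (by norm_num), ← ofReal_norm]
        apply ENNReal.ofReal_le_ofReal
        rw [norm_mul, norm_mul, RCLike.norm_conj]
        have hq1' : ‖z‖ ^ 2 / r ^ 2 ≤ 1 := by
          rw [div_le_one (by positivity)]
          exact pow_le_pow_left₀ hz0 hzr.le 2
        have hq2' : ‖z‖ ^ 2 ≤ ‖z‖ ^ 2 / r ^ 2 := by
          rw [le_div_iff₀ (by positivity)]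
          have : r ^ 2 ≤ 1 := pow_le_one₀ hr0.le hr1.le
          exact mul_le_of_le_one_right (by positivity) this
        have e3 : ‖((1 - ‖z‖ ^ 2 / r ^ 2 : ℝ) : ℂ)‖ ≤ 2 * (1 - ‖z‖) := by
          rw [Complex.norm_real, Real.norm_of_nonneg (by linarith)]
          nlinarith
        calc ‖((1 - ‖z‖ ^ 2 / r ^ 2 : ℝ) : ℂ)‖ * (‖D z‖ * ‖g z‖)
            ≤ (2 * (1 - ‖z‖)) * (‖D z‖ * ‖g z‖) := mul_le_mul_of_nonneg_right e3 (by positivity)
          _ = _ := by ring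
    _ ≤ ∫⁻ z in ball (0:ℂ) 1, 2 * (a * b) z :=
        lintegral_mono_set (ball_subset_ball hr1.le)
    _ = 2 * ∫⁻ z in ball (0:ℂ) 1, (a * b) z := lintegral_const_mul' _ _ (by simp)
    _ ≤ _ := by gcongr

lemma deriv_split {f : ℂ → ℂ} (hf : DifferentiableOn ℂ f (ball 0 1)) {z : ℂ}
    (hz : z ∈ ball (0:ℂ) 1) :
    deriv f z = dslope f 0 z + z * deriv (dslope f 0) z := by
  have h0 : (0:ℂ) ∈ ball (0:ℂ) 1 := by simp
  have hk : DifferentiableOn ℂ (dslope f 0) (ball 0 1) :=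
    (Complex.differentiableOn_dslope (isOpen_ball.mem_nhds h0)).2 hf
  have hkz : DifferentiableAt ℂ (dslope f 0) z := hk.differentiableAt (isOpen_ball.mem_nhds hz)
  have h1 : f = fun w => f 0 + w * dslope f 0 w := by
    funext w
    have := sub_smul_dslope f 0 w
    rw [sub_zero, smul_eq_mul] at this
    rw [this]; ring
  have h2 : HasDerivAt (fun w => f 0 + w * dslope f 0 w)
      (1 * dslope f 0 z + z * deriv (dslope f 0) z) z :=
    ((hasDerivAt_id z).mul hkz.hasDerivAt).const_add (f 0)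
  have h3 : deriv f z = deriv (fun w => f 0 + w * dslope f 0 w) z := by rw [← h1]
  rw [h3, h2.deriv, one_mul]

lemma split_f (f : ℂ → ℂ) (w : ℂ) : f w = f 0 + w * dslope f 0 w := by
  have := sub_smul_dslope f 0 w
  rw [sub_zero, smul_eq_mul] at this
  rw [this]; ring

lemma finite_N {q : ℝ} (hq1 : 1 < q) {f : ℂ → ℂ} (hf : DifferentiableOn ℂ f (ball 0 1))
    (hf1 : ∀ z ∈ ball (0:ℂ) 1, ‖f z‖ ≤ 1)
    (hfq : ∫⁻ z in ball (0:ℂ) 1, ENNReal.ofReal ((1 - ‖z‖) ^ (q - 1) * ‖deriv f z‖ ^ q) < ⊤) :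
    ∫⁻ z in ball (0:ℂ) 1, ENNReal.ofReal ((1 - ‖z‖) ^ (q - 1) *
      ‖2 * dslope f 0 z + z * deriv (dslope f 0) z‖ ^ q) < ⊤ := by
  have hk3 : ∀ z ∈ ball (0:ℂ) 1, ‖dslope f 0 z‖ ≤ 3 := by
    intro z hz
    have h := Complex.norm_dslope_le_div_of_mapsTo_ball (R₁ := 1) (R₂ := 3) hf (by
      intro w hw
      rw [mem_closedBall, dist_eq_norm]
      have h1 := norm_sub_le (f w) (f 0)
      have h2 := hf1 w hw
      have h3 := hf1 0 (by simp)
      linarith) hz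
    simpa using h
  have hq0 : 0 < q := by linarith
  have hle : ∀ z ∈ ball (0:ℂ) 1, ENNReal.ofReal ((1 - ‖z‖) ^ (q - 1) *
      ‖2 * dslope f 0 z + z * deriv (dslope f 0) z‖ ^ q) ≤
      ENNReal.ofReal (2 ^ (q - 1)) * ENNReal.ofReal ((1 - ‖z‖) ^ (q - 1) * ‖deriv f z‖ ^ q) +
        ENNReal.ofReal (2 ^ (q - 1) * 3 ^ q) := by
    intro z hz
    have hz1 : ‖z‖ < 1 := by simpa using hz
    have hz2 : 0 ≤ 1 - ‖z‖ := by linarith
    have hz3 : 1 - ‖z‖ ≤ 1 := by linarith [norm_nonneg z]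
    rw [← ENNReal.ofReal_mul (by positivity), ← ENNReal.ofReal_add (by positivity) (by positivity)]
    apply ENNReal.ofReal_le_ofReal
    have e : 2 * dslope f 0 z + z * deriv (dslope f 0) z = deriv f z + dslope f 0 z := by
      rw [deriv_split hf hz]; ring
    rw [e]
    have h1 : ‖deriv f z + dslope f 0 z‖ ^ q ≤ (‖deriv f z‖ + 3) ^ q :=
      Real.rpow_le_rpow (norm_nonneg _) ((norm_add_le _ _).trans (by linarith [hk3 z hz])) hq0.le
    have h2 : (‖deriv f z‖ + 3) ^ q ≤ 2 ^ (q - 1) * (‖deriv f z‖ ^ q + 3 ^ q) := by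
      have := NNReal.rpow_add_le_mul_rpow_add_rpow ⟨‖deriv f z‖, norm_nonneg _⟩ 3 hq1.le
      exact_mod_cast this
    have h3 : (1 - ‖z‖) ^ (q - 1) ≤ 1 := Real.rpow_le_one hz2 hz3 (by linarith)
    have h4 : 0 ≤ (1 - ‖z‖) ^ (q - 1) := by positivity
    calc (1 - ‖z‖) ^ (q - 1) * ‖deriv f z + dslope f 0 z‖ ^ q
        ≤ (1 - ‖z‖) ^ (q - 1) * (2 ^ (q - 1) * (‖deriv f z‖ ^ q + 3 ^ q)) :=
          mul_le_mul_of_nonneg_left (h1.trans h2) h4
      _ = 2 ^ (q - 1) * ((1 - ‖z‖) ^ (q - 1) * ‖deriv f z‖ ^ q) +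
            (1 - ‖z‖) ^ (q - 1) * (2 ^ (q - 1) * 3 ^ q) := by ring
      _ ≤ 2 ^ (q - 1) * ((1 - ‖z‖) ^ (q - 1) * ‖deriv f z‖ ^ q) + 1 * (2 ^ (q - 1) * 3 ^ q) := by
          gcongr
      _ = _ := by ring
  calc _ ≤ ∫⁻ z in ball (0:ℂ) 1,
        (ENNReal.ofReal (2 ^ (q - 1)) * ENNReal.ofReal ((1 - ‖z‖) ^ (q - 1) * ‖deriv f z‖ ^ q) +
        ENNReal.ofReal (2 ^ (q - 1) * 3 ^ q)) := setLIntegral_mono' measurableSet_ball hle
    _ = ENNReal.ofReal (2 ^ (q - 1)) *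
        (∫⁻ z in ball (0:ℂ) 1, ENNReal.ofReal ((1 - ‖z‖) ^ (q - 1) * ‖deriv f z‖ ^ q)) +
        ENNReal.ofReal (2 ^ (q - 1) * 3 ^ q) * volume (ball (0:ℂ) 1) := by
        rw [lintegral_add_right _ measurable_const, lintegral_const_mul' _ _ ENNReal.ofReal_ne_top,
          lintegral_const, Measure.restrict_apply MeasurableSet.univ, univ_inter]
    _ < ⊤ := by
        apply ENNReal.add_lt_top.2
        exact ⟨ENNReal.mul_lt_top ENNReal.ofReal_lt_top hfq,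
          ENNReal.mul_lt_top ENNReal.ofReal_lt_top measure_ball_lt_top⟩

/-- The bounded functional. -/
lemma J_bound {p q : ℝ} (hpq : p.HolderConjugate q) {f : ℂ → ℂ}
    (hf : DifferentiableOn ℂ f (ball 0 1))
    {s : ℝ} (hf0 : f 0 = (s:ℂ)) (hs0 : 0 < s) (hs1 : s < 1) {φ : ℂ → ℂ}
    (hφ : DifferentiableOn ℂ φ (ball 0 1)) {r : ℝ} (hr0 : 0 < r) (hr1 : r < 1) :
    ‖∫ θ in (-π)..π, φ (r * cis θ) * (starRingEnd ℂ) (1 - s * f (r * cis θ))‖ₑ ≤
      (ENNReal.ofReal (2 * π) + 4 * (∫⁻ z in ball (0:ℂ) 1, ENNReal.ofReal ((1 - ‖z‖) ^ (q - 1) *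
        ‖2 * dslope f 0 z + z * deriv (dslope f 0) z‖ ^ q)) ^ (1 / q)) * dNorm p φ := by
  have h0 : (0:ℂ) ∈ ball (0:ℂ) 1 := by simp
  have hsub : closedBall (0:ℂ) r ⊆ ball 0 1 := closedBall_subset_ball hr1
  have hk : DifferentiableOn ℂ (dslope f 0) (ball 0 1) :=
    (Complex.differentiableOn_dslope (isOpen_ball.mem_nhds h0)).2 hf
  have hkd : DifferentiableOn ℂ (deriv (dslope f 0)) (ball 0 1) := hk.deriv isOpen_ball
  have hid := id_general hφ hk hr0 hr1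
  have hsplit : ∫ θ in (-π)..π, φ (r * cis θ) * (starRingEnd ℂ) (1 - s * f (r * cis θ)) =
      ((1 - s ^ 2 : ℝ) : ℂ) * (2 * π * φ 0) - s * lhsD φ (dslope f 0) r := by
    have hm := mean_cis hr0.le (F := φ) ((hφ.mono (by
        rw [closure_ball _ hr0.ne']
        exact hsub)).diffContOnCl)
    unfold lhsD
    rw [← hm, ← intervalIntegral.integral_const_mul, ← intervalIntegral.integral_const_mul,
      ← intervalIntegral.integral_sub]
    · congr 1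
      funext θ
      rw [split_f f (r * cis θ), hf0]
      simp only [map_sub, map_mul, map_add, map_one, Complex.conj_ofReal]
      push_cast
      ring
    · exact (continuous_const.mul (cont_circ hr0.le (hφ.continuousOn.mono hsub))).intervalIntegrable _ _
    · exact (continuous_const.mul (cont_lhs hr0.le (hφ.continuousOn.mono hsub)
        (hk.continuousOn.mono hsub))).intervalIntegrable _ _
  rw [hsplit, hid]
  have hh := holder_bound hpq (D := deriv φ)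
    (g := fun z => 2 * dslope f 0 z + z * deriv (dslope f 0) z)
    (hφ.deriv isOpen_ball).continuousOn
    ((continuousOn_const.mul hk.continuousOn).add (continuousOn_id.mul hkd.continuousOn)) hr0 hr1
  set N := (∫⁻ z in ball (0:ℂ) 1, ENNReal.ofReal ((1 - ‖z‖) ^ (q - 1) *
        ‖2 * dslope f 0 z + z * deriv (dslope f 0) z‖ ^ q)) ^ (1 / q) with hN
  set T := (∫⁻ z in ball (0:ℂ) 1, ENNReal.ofReal ((1 - ‖z‖) ^ (p - 1) * ‖deriv φ z‖ ^ p)) ^ (1 / p)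
    with hT
  have hh' : ‖rhsD φ (dslope f 0) r‖ₑ ≤ 2 * (T * N) := hh
  have hdn : dNorm p φ = ENNReal.ofReal ‖φ 0‖ + T := rfl
  have e1 : ‖((1 - s ^ 2 : ℝ) : ℂ) * (2 * π * φ 0)‖ₑ ≤ ENNReal.ofReal (2 * π) * ENNReal.ofReal ‖φ 0‖ := by
    rw [← ofReal_norm, ← ENNReal.ofReal_mul (by positivity)]
    apply ENNReal.ofReal_le_ofReal
    rw [norm_mul, norm_mul, norm_mul]
    have h1 : ‖((1 - s ^ 2 : ℝ) : ℂ)‖ ≤ 1 := by
      rw [Complex.norm_real, Real.norm_of_nonneg (by nlinarith)]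
      nlinarith
    have h2 : ‖(2:ℂ)‖ = 2 := by simp
    have h3 : ‖(π:ℂ)‖ = π := by
      rw [Complex.norm_real, Real.norm_of_nonneg Real.pi_pos.le]
    rw [h2, h3]
    exact mul_le_of_le_one_left (by positivity) h1
  have e2 : ‖(s:ℂ) * (2 * rhsD φ (dslope f 0) r)‖ₑ ≤ 4 * (N * T) := by
    rw [enorm_mul, enorm_mul]
    have h1 : ‖(s:ℂ)‖ₑ ≤ 1 := by
      rw [← ofReal_norm, Complex.norm_real, Real.norm_of_nonneg hs0.le]
      exact ENNReal.ofReal_le_one.2 hs1.le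
    have h2 : ‖(2:ℂ)‖ₑ = 2 := by
      rw [← ofReal_norm]; simp
    rw [h2]
    calc ‖(s:ℂ)‖ₑ * (2 * ‖rhsD φ (dslope f 0) r‖ₑ) ≤ 1 * (2 * (2 * (T * N))) := by gcongr
      _ = 4 * (N * T) := by ring
  calc ‖((1 - s ^ 2 : ℝ) : ℂ) * (2 * π * φ 0) - s * (2 * rhsD φ (dslope f 0) r)‖ₑ
      ≤ ‖((1 - s ^ 2 : ℝ) : ℂ) * (2 * π * φ 0)‖ₑ + ‖(s:ℂ) * (2 * rhsD φ (dslope f 0) r)‖ₑ :=
        enorm_sub_le
    _ ≤ ENNReal.ofReal (2 * π) * ENNReal.ofReal ‖φ 0‖ + 4 * (N * T) := add_le_add e1 e2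
    _ ≤ (ENNReal.ofReal (2 * π) + 4 * N) * (ENNReal.ofReal ‖φ 0‖ + T) := by
        rw [add_mul, mul_add, mul_add]
        have : ENNReal.ofReal (2 * π) * ENNReal.ofReal ‖φ 0‖ + 4 * (N * T) =
          ENNReal.ofReal (2 * π) * ENNReal.ofReal ‖φ 0‖ + 4 * N * T := by ring
        rw [this]
        apply add_le_add
        · exact le_self_add
        · exact le_add_self
    _ = _ := by rw [hdn]

end Pool.Agent.H57.Cyc
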