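import Mathlib
import Pool.Agent.H57.Cyc.Noncyc

set_option autoImplicit false

namespace Pool.Agent.H57.Cyc

open Filter Topology MeasureTheory Real Metric Set
open scoped NNReal ENNReal

/-- Evaluation of the functional on `Q f - 1`. -/
lemma J_eval {f : ℂ → ℂ} (hf : DifferentiableOn ℂ f (ball 0 1))
    {s : ℝ} (hf0 : f 0 = (s:ℂ)) (Q : Polynomial ℂ) {r : ℝ} (hr0 : 0 < r) (hr1 : r < 1) :
    ∫ θ in (-π)..π, (Q.eval (r * cis θ) * f (r * cis θ) - 1) *
      (starRingEnd ℂ) (1 - s * f (r * cis θ)) =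
      -((2 * π * (1 - s ^ 2) : ℝ) : ℂ) +
        s * ∫ θ in (-π)..π, Q.eval (r * cis θ) * ((1 - ‖f (r * cis θ)‖ ^ 2 : ℝ) : ℂ) := by
  have hsub : closedBall (0:ℂ) r ⊆ ball 0 1 := closedBall_subset_ball hr1
  have hfr : DiffContOnCl ℂ f (ball 0 r) := (hf.mono (by
        rw [closure_ball _ hr0.ne']
        exact hsub)).diffContOnCl
  have hQr : DiffContOnCl ℂ (fun z => Q.eval z) (ball 0 r) := Q.differentiable.diffContOnCl
  have hQf : DiffContOnCl ℂ (fun z => Q.eval z * f z) (ball 0 r) := by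
    have := hQr.smul hfr
    exact this
  have m1 := mean_cis hr0.le hfr
  have m2 := mean_cis hr0.le hQr
  have m3 := mean_cis hr0.le hQf
  have cf : Continuous (fun θ : ℝ => f (r * cis θ)) := cont_circ hr0.le (hf.continuousOn.mono hsub)
  have cQ : Continuous (fun θ : ℝ => Q.eval ((r:ℂ) * cis θ)) :=
    cont_circ hr0.le Q.continuous.continuousOn
  have cQf : Continuous (fun θ : ℝ => Q.eval ((r:ℂ) * cis θ) * f (r * cis θ)) := cQ.mul cf
  have cn : Continuous (fun θ : ℝ => ((1 - ‖f (r * cis θ)‖ ^ 2 : ℝ) : ℂ)) :=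
    Complex.continuous_ofReal.comp (continuous_const.sub (cf.norm.pow 2))
  have cQn : Continuous (fun θ : ℝ => Q.eval ((r:ℂ) * cis θ) * ((1 - ‖f (r * cis θ)‖ ^ 2 : ℝ) : ℂ)) :=
    cQ.mul cn
  have ccf : Continuous (fun θ : ℝ => (starRingEnd ℂ) (f (r * cis θ))) :=
    Complex.continuous_conj.comp cf
  have m4 : ∫ θ in (-π)..π, (starRingEnd ℂ) (f (r * cis θ)) = 2 * π * s := by
    rw [intervalIntegral.intervalIntegral_conj, m1, hf0, map_mul, map_mul, Complex.conj_ofReal,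
      Complex.conj_ofReal, Complex.conj_ofNat]
  have hpt : ∀ θ : ℝ, (Q.eval (r * cis θ) * f (r * cis θ) - 1) *
      (starRingEnd ℂ) (1 - s * f (r * cis θ)) =
      ((Q.eval ((r:ℂ) * cis θ) * f (r * cis θ) + s * (starRingEnd ℂ) (f (r * cis θ))) +
      s * (Q.eval ((r:ℂ) * cis θ) * ((1 - ‖f (r * cis θ)‖ ^ 2 : ℝ) : ℂ))) -
        (1 + s * Q.eval ((r:ℂ) * cis θ)) := by
    intro θ
    have h1 : ((‖f (r * cis θ)‖ ^ 2 : ℝ) : ℂ) = f (r * cis θ) * (starRingEnd ℂ) (f (r * cis θ)) := by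
      rw [Complex.mul_conj, Complex.normSq_eq_norm_sq]
    rw [Complex.ofReal_sub, h1]
    simp only [map_sub, map_mul, map_one, Complex.conj_ofReal, Complex.ofReal_one]
    ring
  simp only [hpt]
  have c1 : Continuous (fun θ : ℝ => (Q.eval ((r:ℂ) * cis θ) * f (r * cis θ) +
      s * (starRingEnd ℂ) (f (r * cis θ)))) := cQf.add (continuous_const.mul ccf)
  have c2 : Continuous (fun θ : ℝ => (s:ℂ) * (Q.eval ((r:ℂ) * cis θ) *
      ((1 - ‖f (r * cis θ)‖ ^ 2 : ℝ) : ℂ))) := continuous_const.mul cQn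
  have c3 : Continuous (fun θ : ℝ => (1 + (s:ℂ) * Q.eval ((r:ℂ) * cis θ))) :=
    continuous_const.add (continuous_const.mul cQ)
  have c4 : Continuous (fun θ : ℝ => (s:ℂ) * (starRingEnd ℂ) (f (r * cis θ))) :=
    continuous_const.mul ccf
  have c5 : Continuous (fun θ : ℝ => (s:ℂ) * Q.eval ((r:ℂ) * cis θ)) := continuous_const.mul cQ
  have c6 : Continuous (fun θ : ℝ => ((Q.eval ((r:ℂ) * cis θ) * f (r * cis θ) +
      s * (starRingEnd ℂ) (f (r * cis θ))) +
      s * (Q.eval ((r:ℂ) * cis θ) * ((1 - ‖f (r * cis θ)‖ ^ 2 : ℝ) : ℂ)))) := c1.add c2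
  rw [intervalIntegral.integral_sub (c6.intervalIntegrable _ _) (c3.intervalIntegrable _ _),
    intervalIntegral.integral_add (c1.intervalIntegrable _ _) (c2.intervalIntegrable _ _),
    intervalIntegral.integral_add (cQf.intervalIntegrable _ _) (c4.intervalIntegrable _ _),
    intervalIntegral.integral_add (continuous_const.intervalIntegrable _ _)
      (c5.intervalIntegrable _ _),
    intervalIntegral.integral_const_mul, intervalIntegral.integral_const_mul,
    intervalIntegral.integral_const_mul, m2, m3, m4, intervalIntegral.integral_const, hf0]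
  simp only [Complex.real_smul]
  push_cast
  ring

theorem noncyclic {p q : ℝ} (hpq : p.HolderConjugate q) {f : ℂ → ℂ}
    (hf : DifferentiableOn ℂ f (ball 0 1)) (hf1 : ∀ z ∈ ball (0:ℂ) 1, ‖f z‖ ≤ 1)
    {s : ℝ} (hf0 : f 0 = (s:ℂ)) (hs0 : 0 < s) (hs1 : s < 1)
    (hfq : ∫⁻ z in ball (0:ℂ) 1, ENNReal.ofReal ((1 - ‖z‖) ^ (q - 1) * ‖deriv f z‖ ^ q) < ⊤)
    {ρ : ℕ → ℝ} (hρ : ∀ j, 0 ≤ ρ j ∧ ρ j < 1) (hρ1 : Tendsto ρ atTop (𝓝 1))
    (hmean : Tendsto (fun j => ∫ θ in (-π)..π, (1 - ‖f (ρ j * cis θ)‖ ^ 2)) atTop (𝓝 0)) :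
    ¬ IsCyclicD p f := by
  have hππ : -π ≤ π := by linarith [Real.pi_pos]
  set N := (∫⁻ z in ball (0:ℂ) 1, ENNReal.ofReal ((1 - ‖z‖) ^ (q - 1) *
        ‖2 * dslope f 0 z + z * deriv (dslope f 0) z‖ ^ q)) ^ (1 / q) with hN
  have hNfin : N < ⊤ :=
    ENNReal.rpow_lt_top_of_nonneg (by have := hpq.symm.pos; positivity)
      (finite_N hpq.symm.lt hf hf1 hfq).ne
  set C : ℝ≥0∞ := ENNReal.ofReal (2 * π) + 4 * N with hC
  have hCfin : C < ⊤ := by
    rw [hC]
    exact ENNReal.add_lt_top.2 ⟨ENNReal.ofReal_lt_top, ENNReal.mul_lt_top (by simp) hNfin⟩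
  -- lower bound for every polynomial
  have key : ∀ Q : Polynomial ℂ, ENNReal.ofReal (2 * π * (1 - s ^ 2)) ≤
      C * dNorm p (fun z => Q.eval z * f z - 1) := by
    intro Q
    obtain ⟨B, hB⟩ := (isCompact_closedBall (0:ℂ) 1).exists_bound_of_continuousOn
      Q.continuous.continuousOn
    have hB0 : 0 ≤ B := (norm_nonneg _).trans (hB 0 (by simp))
    set I : ℕ → ℝ := fun j => ∫ θ in (-π)..π, (1 - ‖f (ρ j * cis θ)‖ ^ 2) with hI
    have hφ : DifferentiableOn ℂ (fun z => Q.eval z * f z - 1) (ball 0 1) :=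
      (Q.differentiable.differentiableOn.mul hf).sub_const 1
    have hlim : Tendsto (fun j => C * dNorm p (fun z => Q.eval z * f z - 1) +
        ENNReal.ofReal (B * I j)) atTop
        (𝓝 (C * dNorm p (fun z => Q.eval z * f z - 1) + ENNReal.ofReal (B * 0))) :=
      tendsto_const_nhds.add (ENNReal.tendsto_ofReal (hmean.const_mul B))
    rw [mul_zero, ENNReal.ofReal_zero, add_zero] at hlim
    have hpos : ∀ᶠ j in atTop, 0 < ρ j := hρ1.eventually (lt_mem_nhds zero_lt_one)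
    apply ge_of_tendsto hlim
    filter_upwards [hpos] with j hj
    have hj1 := (hρ j).2
    have hsub : closedBall (0:ℂ) (ρ j) ⊆ ball 0 1 := closedBall_subset_ball hj1
    have h1 := J_bound hpq hf hf0 hs0 hs1 hφ hj hj1
    rw [J_eval hf hf0 Q hj hj1] at h1
    set X := ∫ θ in (-π)..π, Q.eval (ρ j * cis θ) * ((1 - ‖f (ρ j * cis θ)‖ ^ 2 : ℝ) : ℂ) with hX
    have cf : Continuous (fun θ : ℝ => f (ρ j * cis θ)) :=
      cont_circ hj.le (hf.continuousOn.mono hsub)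
    have hXle : ‖X‖ ≤ B * I j := by
      rw [hX, hI]
      have hc : Continuous (fun θ : ℝ => B * (1 - ‖f (ρ j * cis θ)‖ ^ 2)) :=
        continuous_const.mul (continuous_const.sub (cf.norm.pow 2))
      have h2 := intervalIntegral.norm_integral_le_of_norm_le (μ := volume) hππ
        (f := fun θ => Q.eval (ρ j * cis θ) * ((1 - ‖f (ρ j * cis θ)‖ ^ 2 : ℝ) : ℂ))
        (g := fun θ => B * (1 - ‖f (ρ j * cis θ)‖ ^ 2))
        (Eventually.of_forall fun θ _ => by
          have h3 : ‖f (ρ j * cis θ)‖ ≤ 1 := hf1 _ (hsub (by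
            rw [mem_closedBall_zero_iff, norm_mul_cis hj.le]))
          have h4 : ‖f (ρ j * cis θ)‖ ^ 2 ≤ 1 := pow_le_one₀ (norm_nonneg _) h3
          rw [norm_mul, Complex.norm_real, Real.norm_of_nonneg (by linarith)]
          apply mul_le_mul_of_nonneg_right _ (by linarith)
          apply hB
          rw [mem_closedBall_zero_iff, norm_mul_cis hj.le]
          exact hj1.le)
        (hc.intervalIntegrable _ _)
      refine h2.trans (le_of_eq ?_)
      rw [intervalIntegral.integral_const_mul]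
    have h5 : ENNReal.ofReal (2 * π * (1 - s ^ 2)) ≤
        ‖-((2 * π * (1 - s ^ 2) : ℝ) : ℂ) + s * X‖ₑ + ENNReal.ofReal (B * I j) := by
      have hs2 : 0 ≤ 1 - s ^ 2 := by nlinarith
      have h6 : 2 * π * (1 - s ^ 2) ≤ ‖-((2 * π * (1 - s ^ 2) : ℝ) : ℂ) + s * X‖ + ‖X‖ := by
        have h7 : ((2 * π * (1 - s ^ 2) : ℝ) : ℂ) =
            s * X - (-((2 * π * (1 - s ^ 2) : ℝ) : ℂ) + s * X) := by ring
        have h8 : ‖((2 * π * (1 - s ^ 2) : ℝ) : ℂ)‖ = 2 * π * (1 - s ^ 2) := by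
          rw [Complex.norm_real, Real.norm_of_nonneg]
          have := Real.pi_pos
          positivity
        have h9 := norm_sub_le ((s:ℂ) * X) (-((2 * π * (1 - s ^ 2) : ℝ) : ℂ) + s * X)
        rw [← h7, h8] at h9
        have h10 : ‖(s:ℂ) * X‖ ≤ ‖X‖ := by
          rw [norm_mul, Complex.norm_real, Real.norm_of_nonneg hs0.le]
          exact mul_le_of_le_one_left (norm_nonneg _) hs1.le
        linarith
      calc ENNReal.ofReal (2 * π * (1 - s ^ 2))
          ≤ ENNReal.ofReal (‖-((2 * π * (1 - s ^ 2) : ℝ) : ℂ) + s * X‖ + B * I j) :=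
            ENNReal.ofReal_le_ofReal (h6.trans (by linarith))
        _ ≤ ENNReal.ofReal ‖-((2 * π * (1 - s ^ 2) : ℝ) : ℂ) + s * X‖ + ENNReal.ofReal (B * I j) :=
            ENNReal.ofReal_add_le
        _ = _ := by rw [ofReal_norm]
    exact h5.trans (add_le_add_left h1 _)
  rintro ⟨Qn, hQn⟩
  have hlim : Tendsto (fun n => C * dNorm p (fun z => (Qn n).eval z * f z - 1)) atTop (𝓝 (C * 0)) :=
    ENNReal.Tendsto.const_mul hQn (Or.inr hCfin.ne)
  rw [mul_zero] at hlim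
  have h1 : ENNReal.ofReal (2 * π * (1 - s ^ 2)) ≤ 0 := ge_of_tendsto' hlim (fun n => key (Qn n))
  have h2 : 0 < ENNReal.ofReal (2 * π * (1 - s ^ 2)) := by
    apply ENNReal.ofReal_pos.2
    have h3 : 0 < 1 - s ^ 2 := by nlinarith
    have := Real.pi_pos
    positivity
  exact absurd h1 (not_le.2 h2)

/-- Main theorem: a counterexample for every `p > 2`. -/
theorem main {p : ℝ} (hp : 2 < p) :
    ∃ f g : ℂ → ℂ, MemD p f ∧ MemD p g ∧ (∀ z ∈ ball (0:ℂ) 1, f z = Complex.exp (g z)) ∧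
      (∀ z ∈ ball (0:ℂ) 1, ‖f z‖ ≤ 1) ∧
      (∀ ε > 0, ∃ r : ℝ, 0 ≤ r ∧ r < 1 ∧ 1 - ε < Real.circleAverage (fun z => ‖f z‖ ^ 2) 0 r) ∧
      ¬ IsCyclicD p f := by
  have hp1 : 1 < p := by linarith
  set q : ℝ := p / (p - 1) with hq
  have hpq : p.HolderConjugate q := Real.HolderConjugate.conjExponent hp1
  have hq1 : 1 < q := hpq.symm.lt
  have hq2 : q < 2 := by
    rw [hq, div_lt_iff₀ (by linarith)]
    linarith
  obtain ⟨G, ρ, hG, hG0, hS1, hGp, hSq, hρ, hρ1, hmean⟩ := exists_pair hp hq1 hq2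
  have h0 : (0:ℂ) ∈ ball (0:ℂ) 1 := by simp
  have hSd : DifferentiableOn ℂ (SS G) (ball 0 1) := by
    unfold SS
    exact hG.neg.cexp
  have hSGp : ∫⁻ z in ball (0:ℂ) 1, ENNReal.ofReal ((1 - ‖z‖) ^ (p - 1) * ‖deriv (SS G) z‖ ^ p) < ⊤ := by
    refine lt_of_le_of_lt (setLIntegral_mono' measurableSet_ball ?_) hGp
    intro z hz
    have hz1 : ‖z‖ < 1 := by simpa using hz
    have hz2 : 0 ≤ 1 - ‖z‖ := by linarith
    apply ENNReal.ofReal_le_ofReal
    apply mul_le_mul_of_nonneg_left _ (by positivity)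
    apply Real.rpow_le_rpow (norm_nonneg _) _ (by linarith)
    rw [deriv_SS (hG.differentiableAt (isOpen_ball.mem_nhds hz)), norm_mul, norm_neg]
    exact mul_le_of_le_one_right (norm_nonneg _) (hS1 z hz)
  have hnegp : ∫⁻ z in ball (0:ℂ) 1, ENNReal.ofReal ((1 - ‖z‖) ^ (p - 1) *
      ‖deriv (fun z => -G z) z‖ ^ p) < ⊤ := by
    have : ∀ z, ‖deriv (fun z => -G z) z‖ = ‖deriv G z‖ := by
      intro z
      rw [deriv.fun_neg, norm_neg]
    simp only [this]
    exact hGp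
  have hfin : ∀ h : ℂ → ℂ, ∫⁻ z in ball (0:ℂ) 1, ENNReal.ofReal ((1 - ‖z‖) ^ (p - 1) *
      ‖deriv h z‖ ^ p) < ⊤ → dNorm p h < ⊤ := by
    intro h hh
    unfold dNorm
    exact ENNReal.add_lt_top.2 ⟨ENNReal.ofReal_lt_top,
      ENNReal.rpow_lt_top_of_nonneg (by positivity) hh.ne⟩
  have hS0 : SS G 0 = ((Real.exp (-1) : ℝ) : ℂ) := by
    unfold SS
    rw [hG0]
    push_cast
    rfl
  refine ⟨SS G, fun z => -G z, ⟨hSd, hfin _ hSGp⟩, ⟨hG.neg, hfin _ hnegp⟩, fun z _ => rfl, hS1,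
    ?_, ?_⟩
  · intro ε hε
    have hπ := Real.pi_pos
    have h1 := hmean.eventually (gt_mem_nhds (show (0:ℝ) < 2 * π * ε by positivity))
    obtain ⟨j, hj⟩ := h1.exists
    refine ⟨ρ j, (hρ j).1, (hρ j).2, ?_⟩
    have hsub : closedBall (0:ℂ) (ρ j) ⊆ ball 0 1 := closedBall_subset_ball (hρ j).2
    have cf : Continuous (fun θ : ℝ => SS G (ρ j * cis θ)) :=
      cont_circ (hρ j).1 (hSd.continuousOn.mono hsub)
    have cf2 : Continuous (fun θ : ℝ => ‖SS G (ρ j * cis θ)‖ ^ 2) := cf.norm.pow 2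
    rw [intervalIntegral.integral_sub (continuous_const.intervalIntegrable _ _)
      (cf2.intervalIntegrable _ _), intervalIntegral.integral_const] at hj
    have hper : Function.Periodic (fun θ : ℝ => ‖SS G (ρ j * cis θ)‖ ^ 2) (2 * π) := by
      intro θ
      simp only
      rw [cis_periodic θ]
    have h4 := hper.intervalIntegral_add_eq (-π) 0
    have e1 : -π + 2 * π = π := by ring
    rw [e1, zero_add] at h4
    rw [Real.circleAverage_def]
    have h3 : ∀ θ, circleMap 0 (ρ j) θ = ρ j * cis θ := by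
      intro θ
      unfold circleMap cis
      simp
    simp only [h3]
    rw [← h4, smul_eq_mul, inv_mul_eq_div, lt_div_iff₀ (by positivity)]
    simp only [smul_eq_mul, mul_one] at hj
    linarith
  · exact noncyclic hpq hSd hS1 hS0 (Real.exp_pos _) (by
      rw [Real.exp_lt_one_iff]; norm_num) hSq hρ hρ1 hmean

end Pool.Agent.H57.Cyc
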